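import Mathlib

/-!
# Hybrids of groups of matrices: definitions
-/

set_option autoImplicit false

namespace Pool.Agent.K4H34.HH

open Matrix

/-- Groups of invertible complex matrices. -/
abbrev GL' (N : Type*) [Fintype N] [DecidableEq N] : Type _ := (Matrix N N ℂ)ˣ

section arith

variable {N : Type*} [Fintype N] [DecidableEq N]

/-- The group acts irreducibly. -/
def IsIrreducible (Γ : Subgroup (GL' N)) : Prop :=
  ∀ W : Submodule ℂ (N → ℂ), (∀ γ ∈ Γ, ∀ v ∈ W, γ.1 *ᵥ v ∈ W) → W = ⊥ ∨ W = ⊤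

/-- The conjugates under `σ` of the traces of the elements of the group are bounded. -/
def TracesBounded (σ : ℂ ≃+* ℂ) (Γ : Subgroup (GL' N)) : Prop :=
  ∃ C : ℝ, ∀ γ ∈ Γ, ‖σ γ.1.trace‖ ≤ C

/-- The automorphism `σ` fixes the traces of the elements of the group. -/
def TracesFixed (σ : ℂ ≃+* ℂ) (Γ : Subgroup (GL' N)) : Prop :=
  ∀ γ ∈ Γ, σ γ.1.trace = γ.1.trace

/-- The automorphism `σ` is the complex conjugation on the traces of the elements of the group. -/
def TracesConjugated (σ : ℂ ≃+* ℂ) (Γ : Subgroup (GL' N)) : Prop :=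
  ∀ γ ∈ Γ, σ γ.1.trace = starRingEnd ℂ γ.1.trace

/-- Vinberg's arithmeticity condition: the conjugates of the traces under any automorphism of the
field of complex numbers are bounded, except for the automorphisms that fix all traces or conjugate
all traces. -/
def VinbergCondition (Γ : Subgroup (GL' N)) : Prop :=
  ∀ σ : ℂ ≃+* ℂ, TracesBounded σ Γ ∨ TracesFixed σ Γ ∨ TracesConjugated σ Γ

/-- The trace field of the group. -/
noncomputable def traceField (Γ : Subgroup (GL' N)) : Subfield ℂ :=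
  Subfield.closure {z | ∃ γ ∈ Γ, z = γ.1.trace}

/-- Some element of the group has a trace that is not real. -/
def HasNonrealTrace (Γ : Subgroup (GL' N)) : Prop :=
  ∃ γ ∈ Γ, starRingEnd ℂ γ.1.trace ≠ γ.1.trace

/-- The traces of the elements of the group are unbounded. -/
def HasUnboundedTraces (Γ : Subgroup (GL' N)) : Prop :=
  ¬ ∃ C : ℝ, ∀ γ ∈ Γ, ‖γ.1.trace‖ ≤ C

end arith

section hybrid

variable {m : Type*} [Fintype m] [DecidableEq m]

/-- The homomorphism that extends a matrix by `1` in one more dimension. -/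
def extend : Matrix m m ℂ →* Matrix (m ⊕ Unit) (m ⊕ Unit) ℂ where
  toFun A := Matrix.fromBlocks A 0 0 1
  map_one' := Matrix.fromBlocks_one
  map_mul' A B := by
    rw [Matrix.fromBlocks_multiply]
    simp

/-- The extension by `1`, on groups: the stabilizer of a hyperplane acts on the whole space. -/
def extendGL : GL' m →* GL' (m ⊕ Unit) := Units.map extend

/-- The exchange of the last two coordinates. -/
def swapLast : (m ⊕ Unit) ⊕ Unit ≃ (m ⊕ Unit) ⊕ Unit where
  toFun := Sum.elim (Sum.elim (fun i => Sum.inl (Sum.inl i)) (fun _ => Sum.inr ()))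
    (fun _ => Sum.inl (Sum.inr ()))
  invFun := Sum.elim (Sum.elim (fun i => Sum.inl (Sum.inl i)) (fun _ => Sum.inr ()))
    (fun _ => Sum.inl (Sum.inr ()))
  left_inv := by rintro ((i | u) | u) <;> rfl
  right_inv := by rintro ((i | u) | u) <;> rfl

/-- The conjugation by the exchange of the last two coordinates. -/
def swapGL : GL' ((m ⊕ Unit) ⊕ Unit) →* GL' ((m ⊕ Unit) ⊕ Unit) :=
  Units.map ((Matrix.reindexAlgEquiv ℂ ℂ (swapLast (m := m))) :
    Matrix ((m ⊕ Unit) ⊕ Unit) ((m ⊕ Unit) ⊕ Unit) ℂ →* _)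

/-- The orthogonal hybrid of two groups of matrices on `W ⊕ ℂ`: they act on `W ⊕ ℂ e₁ ⊕ ℂ e₂`, the
first one on `W ⊕ ℂ e₁` and trivially on `e₂`, the second one on `W ⊕ ℂ e₂` and trivially on `e₁`;
the hybrid is the group generated by them. -/
def hybrid (Γ₁ Γ₂ : Subgroup (GL' (m ⊕ Unit))) : Subgroup (GL' ((m ⊕ Unit) ⊕ Unit)) :=
  Γ₁.map extendGL ⊔ (Γ₂.map extendGL).map swapGL

/-- The groups `Γ₁` (acting on `W ⊕ ℂ e₁`) and `Γ₂` (acting on `W ⊕ ℂ e₂`) are irreducible and
contain the irreducible group `Γ₃` with unbounded traces, which acts on `W`. -/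
structure IsHybridData (Γ₁ Γ₂ : Subgroup (GL' (m ⊕ Unit))) (Γ₃ : Subgroup (GL' m)) : Prop where
  irreducible₁ : IsIrreducible Γ₁
  irreducible₂ : IsIrreducible Γ₂
  irreducible₃ : IsIrreducible Γ₃
  unbounded₃ : HasUnboundedTraces Γ₃
  le₁ : Γ₃.map extendGL ≤ Γ₁
  le₂ : Γ₃.map extendGL ≤ Γ₂

end hybrid

section unitary

variable {N : Type*} [Fintype N] [DecidableEq N]

/-- The special unitary group of the Hermitian form with matrix `J`. -/
def SU (J : Matrix N N ℂ) : Subgroup (GL' N) where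
  carrier := {γ | γ.1ᴴ * J * γ.1 = J ∧ γ.1.det = 1}
  one_mem' := by
    refine ⟨?_, ?_⟩
    · rw [Units.val_one, Matrix.conjTranspose_one, one_mul, mul_one]
    · rw [Units.val_one, Matrix.det_one]
  mul_mem' := by
    rintro a b ⟨ha, ha'⟩ ⟨hb, hb'⟩
    refine ⟨?_, ?_⟩
    · rw [Units.val_mul, Matrix.conjTranspose_mul]
      calc b.1ᴴ * a.1ᴴ * J * (a.1 * b.1) = b.1ᴴ * (a.1ᴴ * J * a.1) * b.1 := by
            simp only [mul_assoc]
        _ = J := by rw [ha, hb]
    · rw [Units.val_mul, Matrix.det_mul, ha', hb', one_mul]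
  inv_mem' := by
    rintro a ⟨ha, ha'⟩
    have h1 : a.1 * (a⁻¹).1 = 1 := by rw [← Units.val_mul, mul_inv_cancel, Units.val_one]
    refine ⟨?_, ?_⟩
    · have h2 : ((a⁻¹).1)ᴴ * a.1ᴴ = 1 := by
        rw [← Matrix.conjTranspose_mul, h1, Matrix.conjTranspose_one]
      calc ((a⁻¹).1)ᴴ * J * (a⁻¹).1 = ((a⁻¹).1)ᴴ * (a.1ᴴ * J * a.1) * (a⁻¹).1 := by rw [ha]
        _ = (((a⁻¹).1)ᴴ * a.1ᴴ) * J * (a.1 * (a⁻¹).1) := by simp only [mul_assoc]
        _ = J := by rw [h1, h2, one_mul, mul_one]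
    · have h3 : a.1.det * ((a⁻¹).1).det = 1 := by rw [← Matrix.det_mul, h1, Matrix.det_one]
      rwa [ha', one_mul] at h3

/-- Every polynomial in the matrix entries that vanishes on the group vanishes on all complex
matrices of determinant one (the complexification of the special unitary group). -/
def IsZariskiDense (Γ : Subgroup (GL' N)) : Prop :=
  ∀ p : MvPolynomial (N × N) ℂ, (∀ γ ∈ Γ, MvPolynomial.eval (fun x => γ.1 x.1 x.2) p = 0) →
    ∀ A : Matrix N N ℂ, A.det = 1 → MvPolynomial.eval (fun x => A x.1 x.2) p = 0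

/-- The matrix entries of the elements of the group are unbounded. -/
def IsUnbounded (Γ : Subgroup (GL' N)) : Prop :=
  ¬ ∃ C : ℝ, ∀ γ ∈ Γ, ∀ i j, ‖γ.1 i j‖ ≤ C

/-- Vinberg's arithmeticity condition for the adjoint traces. For `γ` in a special unitary group, the
trace of `Ad γ` is `|tr γ| ^ 2 - 1`; the conjugates of these numbers under any automorphism of the
field of complex numbers which does not fix all of them are bounded. -/
def AdjointVinbergCondition (Γ : Subgroup (GL' N)) : Prop :=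
  ∀ σ : ℂ ≃+* ℂ, (∃ C : ℝ, ∀ γ ∈ Γ, ‖σ (((‖γ.1.trace‖ ^ 2 - 1 : ℝ) : ℂ))‖ ≤ C) ∨
    ∀ γ ∈ Γ, σ (((‖γ.1.trace‖ ^ 2 - 1 : ℝ) : ℂ)) = ((‖γ.1.trace‖ ^ 2 - 1 : ℝ) : ℂ)

/-- `Γ` is a subgroup of the special unitary group of `J` which is Zariski dense in its
complexification and not relatively compact; by the density theorem of Borel all lattices have this
property, if `J` is an indefinite Hermitian form. -/
structure IsLarge (J : Matrix N N ℂ) (Γ : Subgroup (GL' N)) : Prop where
  le : Γ ≤ SU J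
  dense : IsZariskiDense Γ
  unbounded : IsUnbounded Γ

/-- The Hermitian form `|z₀| ^ 2 + ⋯ + |z_(k-1)| ^ 2 - |z_k| ^ 2` of signature `(k, 1)`. -/
def lorentz (k : ℕ) : Matrix (Fin (k + 1)) (Fin (k + 1)) ℂ :=
  Matrix.diagonal fun i => if i = Fin.last k then -1 else 1

end unitary

end Pool.Agent.K4H34.HH
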