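import Mathlib

/-!
# Representations with the same traces are conjugate
-/

set_option autoImplicit false
set_option linter.unusedSectionVars false

namespace Pool.Agent.K4H34.HH

open Matrix

open scoped ComplexOrder

variable {G : Type*} [Group G] {N : Type*} [Fintype N] [DecidableEq N]

/-- The matrices of the representation span all matrices. -/
def Spans (ρ : G →* Matrix N N ℂ) : Prop := Submodule.span ℂ (Set.range ρ) = ⊤

/-- The representation of the group algebra. -/
noncomputable def alg (ρ : G →* Matrix N N ℂ) : MonoidAlgebra ℂ G →ₐ[ℂ] Matrix N N ℂ :=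
  MonoidAlgebra.lift ℂ (Matrix N N ℂ) G ρ

theorem alg_of (ρ : G →* Matrix N N ℂ) (g : G) : alg ρ (MonoidAlgebra.of ℂ G g) = ρ g := by
  unfold alg
  exact MonoidAlgebra.lift_of _ _

theorem alg_surj {ρ : G →* Matrix N N ℂ} (h : Spans ρ) : Function.Surjective (alg ρ) := by
  intro A
  have hA : A ∈ Submodule.span ℂ (Set.range ρ) := by
    rw [h]
    trivial
  have h1 : Submodule.span ℂ (Set.range ρ) ≤ LinearMap.range (alg ρ).toLinearMap := by
    rw [Submodule.span_le]
    rintro _ ⟨g, rfl⟩
    exact ⟨MonoidAlgebra.of ℂ G g, alg_of ρ g⟩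
  exact h1 hA

theorem eq_zero_of_trace {ρ : G →* Matrix N N ℂ} (h : Spans ρ) {A : Matrix N N ℂ}
    (hA : ∀ g, (A * ρ g).trace = 0) : A = 0 := by
  have h1 : ∀ B ∈ Submodule.span ℂ (Set.range ρ), (A * B).trace = 0 := by
    intro B hB
    induction hB using Submodule.span_induction with
    | mem B hB =>
      obtain ⟨g, rfl⟩ := hB
      exact hA g
    | zero => simp
    | add B C _ _ hB hC => rw [mul_add, trace_add, hB, hC, add_zero]
    | smul c B _ hB => rw [Matrix.mul_smul, trace_smul, hB, smul_zero]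
  have h2 := h1 Aᴴ (by rw [h]; trivial)
  exact (Matrix.trace_mul_conjTranspose_self_eq_zero_iff).1 h2

theorem alg_trace {ρ ρ' : G →* Matrix N N ℂ} (htr : ∀ g, (ρ g).trace = (ρ' g).trace)
    (x : MonoidAlgebra ℂ G) : (alg ρ x).trace = (alg ρ' x).trace := by
  have h : (Matrix.traceLinearMap N ℂ ℂ).comp (alg ρ).toLinearMap =
      (Matrix.traceLinearMap N ℂ ℂ).comp (alg ρ').toLinearMap := by
    apply MonoidAlgebra.lhom_ext'
    intro g
    ext
    have h1 := htr g
    rw [← alg_of ρ g, ← alg_of ρ' g] at h1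
    exact h1
  exact LinearMap.congr_fun h x

theorem ker_le {ρ ρ' : G →* Matrix N N ℂ} (h' : Spans ρ')
    (htr : ∀ g, (ρ g).trace = (ρ' g).trace) {x : MonoidAlgebra ℂ G} (hx : alg ρ x = 0) :
    alg ρ' x = 0 := by
  apply eq_zero_of_trace h'
  intro g
  rw [← alg_of ρ' g, ← map_mul, ← alg_trace htr, map_mul, hx, zero_mul, trace_zero]

/-- **Two irreducible representations with the same traces are conjugate.** -/
theorem exists_intertwiner [Nonempty N] {ρ ρ' : G →* Matrix N N ℂ} (h : Spans ρ) (h' : Spans ρ')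
    (htr : ∀ g, (ρ g).trace = (ρ' g).trace) :
    ∃ P : Matrix N N ℂ, IsUnit P ∧ ∀ g, ρ' g * P = P * ρ g := by
  have ha := alg_surj h
  let θ : Matrix N N ℂ → Matrix N N ℂ := fun A => alg ρ' (Function.surjInv ha A)
  have hθ : ∀ x, θ (alg ρ x) = alg ρ' x := by
    intro x
    have h1 : alg ρ (Function.surjInv ha (alg ρ x) - x) = 0 := by
      rw [map_sub, Function.surjInv_eq ha, sub_self]
    have h2 := ker_le h' htr h1
    rw [map_sub, sub_eq_zero] at h2
    exact h2
  have hadd : ∀ A B, θ (A + B) = θ A + θ B := by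
    intro A B
    obtain ⟨x, rfl⟩ := ha A
    obtain ⟨y, rfl⟩ := ha B
    rw [← map_add, hθ, hθ, hθ, map_add]
  have hmul : ∀ A B, θ (A * B) = θ A * θ B := by
    intro A B
    obtain ⟨x, rfl⟩ := ha A
    obtain ⟨y, rfl⟩ := ha B
    rw [← map_mul, hθ, hθ, hθ, map_mul]
  have hsmul : ∀ (c : ℂ) A, θ (c • A) = c • θ A := by
    intro c A
    obtain ⟨x, rfl⟩ := ha A
    rw [← map_smul, hθ, hθ, map_smul]
  have hinj : ∀ A, θ A = 0 → A = 0 := by
    intro A hA
    obtain ⟨x, rfl⟩ := ha A
    rw [hθ] at hA
    exact ker_le h (fun g => (htr g).symm) hA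
  have h0 : θ 0 = 0 := by
    have := hsmul 0 0
    rwa [zero_smul, zero_smul] at this
  let L : Matrix N N ℂ →ₗ[ℂ] Matrix N N ℂ :=
    { toFun := θ, map_add' := hadd, map_smul' := hsmul }
  obtain ⟨i₀⟩ := (inferInstance : Nonempty N)
  let P : Matrix N N ℂ → Matrix N N ℂ := fun X =>
    ∑ k, θ (Matrix.single k i₀ 1) * X * Matrix.single i₀ k 1
  have hP : ∀ X A, θ A * P X = P X * A := by
    intro X A
    have e1 : ∀ k, θ A * (θ (Matrix.single k i₀ 1) * X * Matrix.single i₀ k 1) =
        ∑ i, A i k • (θ (Matrix.single i i₀ 1) * X * Matrix.single i₀ k 1) := by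
      intro k
      have h1 : A * Matrix.single k i₀ 1 = ∑ i, A i k • Matrix.single i i₀ (1 : ℂ) := by
        ext a b
        rw [Matrix.sum_apply]
        simp only [Matrix.smul_apply, Matrix.single_apply, Matrix.mul_apply, smul_eq_mul]
        by_cases hb : i₀ = b
        · subst hb
          simp
        · simp [hb]
      have h2 : θ (A * Matrix.single k i₀ 1) = ∑ i, A i k • θ (Matrix.single i i₀ 1) := by
        rw [h1]
        change L _ = _
        rw [map_sum]
        exact Finset.sum_congr rfl fun i _ => map_smul L _ _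
      rw [← mul_assoc, ← mul_assoc, ← hmul, h2, Finset.sum_mul, Finset.sum_mul]
      exact Finset.sum_congr rfl fun i _ => by rw [Matrix.smul_mul, Matrix.smul_mul]
    have e2 : ∀ i, θ (Matrix.single i i₀ 1) * X * Matrix.single i₀ i 1 * A =
        ∑ k, A i k • (θ (Matrix.single i i₀ 1) * X * Matrix.single i₀ k 1) := by
      intro i
      have h1 : Matrix.single i₀ i 1 * A = ∑ k, A i k • Matrix.single i₀ k (1 : ℂ) := by
        ext a b
        rw [Matrix.sum_apply]
        simp only [Matrix.smul_apply, Matrix.single_apply, Matrix.mul_apply, smul_eq_mul]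
        by_cases hb : i₀ = a
        · subst hb
          simp
        · simp [hb]
      rw [mul_assoc, h1, Finset.mul_sum]
      exact Finset.sum_congr rfl fun k _ => by rw [Matrix.mul_smul]
    simp only [P]
    rw [Finset.mul_sum, Finset.sum_mul, Finset.sum_congr rfl (fun k _ => e1 k),
      Finset.sum_congr rfl (fun i _ => e2 i), Finset.sum_comm]
  have hne : ∃ X, P X ≠ 0 := by
    by_contra hcon
    push Not at hcon
    have h1 : θ (Matrix.single i₀ i₀ 1) = 0 := by
      ext k l
      have h2 := hcon (Matrix.single l i₀ 1)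
      have h3 : P (Matrix.single l i₀ 1) * Matrix.single i₀ i₀ 1 =
          θ (Matrix.single i₀ i₀ 1) * Matrix.single l i₀ 1 := by
        simp only [P]
        rw [Finset.sum_mul, Finset.sum_eq_single i₀]
        · simp [mul_assoc]
        · intro b _ hb
          rw [mul_assoc, Matrix.single_mul_single_of_ne _ _ _ _ hb, mul_zero]
        · intro h
          exact absurd (Finset.mem_univ _) h
      rw [h2, zero_mul] at h3
      have h4 := congrFun (congrFun h3 k) i₀
      rw [Matrix.zero_apply, Matrix.mul_single_apply_same] at h4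
      simpa using h4.symm
    have h2 := hinj _ h1
    have h3 := congrFun (congrFun h2 i₀) i₀
    simp at h3
  obtain ⟨X, hX⟩ := hne
  refine ⟨P X, ?_, fun g => ?_⟩
  · rw [Matrix.isUnit_iff_isUnit_det, isUnit_iff_ne_zero]
    intro hdet
    obtain ⟨v, hv, hPv⟩ := Matrix.exists_mulVec_eq_zero_iff.2 hdet
    apply hX
    obtain ⟨j, hj⟩ := Function.ne_iff.1 hv
    have h1 : ∀ A : Matrix N N ℂ, P X *ᵥ (A *ᵥ v) = 0 := by
      intro A
      rw [Matrix.mulVec_mulVec, ← hP, ← Matrix.mulVec_mulVec, hPv, Matrix.mulVec_zero]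
    ext a b
    have h2 := h1 (Matrix.single b j (v j)⁻¹)
    have h3 : Matrix.single b j (v j)⁻¹ *ᵥ v = Pi.single b 1 := by
      ext c
      simp only [Matrix.mulVec, dotProduct, Matrix.single_apply, Pi.single_apply]
      by_cases hc : b = c
      · subst hc
        simp [inv_mul_cancel₀ hj]
      · simp [hc, Ne.symm hc]
    rw [h3] at h2
    have h4 := congrFun h2 a
    simpa using h4
  · have h1 := hP X (ρ g)
    rwa [← alg_of ρ g, hθ, alg_of, alg_of] at h1

/-- Matrices commuting with an irreducible representation are scalar. -/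
theorem scalar_of_commute {ρ : G →* Matrix N N ℂ} (h : Spans ρ) {A : Matrix N N ℂ}
    (hA : ∀ g, ρ g * A = A * ρ g) : ∃ c : ℂ, A = c • (1 : Matrix N N ℂ) := by
  have h1 : ∀ B ∈ Submodule.span ℂ (Set.range ρ), B * A = A * B := by
    intro B hB
    induction hB using Submodule.span_induction with
    | mem B hB =>
      obtain ⟨g, rfl⟩ := hB
      exact hA g
    | zero => simp
    | add B C _ _ hB hC => rw [add_mul, mul_add, hB, hC]
    | smul c B _ hB => rw [Matrix.smul_mul, Matrix.mul_smul, hB]
  have h2 : ∀ B : Matrix N N ℂ, B * A = A * B := fun B => h1 B (by rw [h]; trivial)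
  obtain ⟨c, hc⟩ := Matrix.mem_range_scalar_of_commute_single (M := A) (fun i j _ => h2 _)
  refine ⟨c, ?_⟩
  rw [← hc, Matrix.smul_one_eq_diagonal, Matrix.scalar_apply]

end Pool.Agent.K4H34.HH
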