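import Mathlib

/-!
# Bounded groups of linear maps have fixed points in invariant compact convex sets, and preserve
positive definite Hermitian forms
-/

set_option autoImplicit false
set_option linter.unusedSectionVars false

namespace Pool.Agent.K4H34.HH

open Matrix Set

open scoped ComplexOrder

/-- A uniformly bounded group of linear maps of a Hilbert space which preserves a compact convex
set has a fixed point in this set. -/
theorem exists_fixed {G : Type*} [Group G] {E : Type*} [NormedAddCommGroup E]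
    [InnerProductSpace ℂ E] [FiniteDimensional ℂ E] (T : G → E →ₗ[ℂ] E)
    (hT : ∀ g h x, T g (T h x) = T (h * g) x) (h1 : ∀ x, T 1 x = x) {C : ℝ}
    (hC : ∀ g x, ‖T g x‖ ≤ C * ‖x‖) {K : Set E} (hK : IsCompact K) (hconv : Convex ℝ K)
    (hne : K.Nonempty) (hTK : ∀ g, ∀ x ∈ K, T g x ∈ K) : ∃ x ∈ K, ∀ g, T g x = x := by
  have hbdd : ∀ x, BddAbove (range fun g => ‖T g x‖) := by
    intro x
    refine ⟨C * ‖x‖, ?_⟩
    rintro _ ⟨g, rfl⟩
    exact hC g x
  let F : E → ℝ := fun x => ⨆ g, ‖T g x‖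
  have hle : ∀ g x, ‖T g x‖ ≤ F x := fun g x => le_ciSup (hbdd x) g
  have hlsc : LowerSemicontinuous F := by
    refine lowerSemicontinuous_ciSup hbdd fun g => ?_
    exact ((T g).continuous_of_finiteDimensional.norm).lowerSemicontinuous
  obtain ⟨x, hx, hmin⟩ := LowerSemicontinuousOn.exists_isMinOn hne hK (hlsc.lowerSemicontinuousOn K)
  refine ⟨x, hx, fun h => ?_⟩
  set y := T h x with hy
  set μ := F x with hμ
  have hμ0 : 0 ≤ μ := (norm_nonneg _).trans (hle 1 x)
  have hFy : ∀ g, ‖T g y‖ ≤ μ := by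
    intro g
    rw [hy, hT]
    exact hle _ _
  have hC0 : ∀ z : E, ‖z‖ ≤ C * ‖z‖ := by
    intro z
    have := hC 1 z
    rwa [h1] at this
  by_contra hxy
  have hd : 0 < ‖x - y‖ := norm_pos_iff.2 (sub_ne_zero.2 (Ne.symm hxy))
  have hCpos : 0 < C := by
    have := hC0 (x - y)
    by_contra hcon
    have h2 : C * ‖x - y‖ ≤ 0 := mul_nonpos_of_nonpos_of_nonneg (not_lt.1 hcon) hd.le
    linarith
  have hz : (2⁻¹ : ℝ) • x + (2⁻¹ : ℝ) • y ∈ K :=
    hconv hx (hTK h x hx) (by norm_num) (by norm_num) (by norm_num)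
  have hz' : (2⁻¹ : ℂ) • (x + y) ∈ K := by
    have : (2⁻¹ : ℝ) • x + (2⁻¹ : ℝ) • y = (2⁻¹ : ℂ) • (x + y) := by
      rw [← smul_add]
      have h2 : (2⁻¹ : ℂ) = ((2⁻¹ : ℝ) : ℂ) := by push_cast; rfl
      rw [h2]
      exact (Complex.coe_smul _ _).symm
    rwa [← this]
  have hFz : μ ≤ F ((2⁻¹ : ℂ) • (x + y)) := hmin hz'
  have hpos : 0 < C ^ 2 * (8 * μ + 1) := by positivity
  set ε := ‖x - y‖ ^ 2 / (C ^ 2 * (8 * μ + 1)) with hε
  have hε0 : 0 < ε := div_pos (by positivity) hpos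
  obtain ⟨g, hg⟩ := exists_lt_of_lt_ciSup (lt_of_lt_of_le (sub_lt_self μ hε0) hFz)
  have hg' : μ - ε < ‖T g ((2⁻¹ : ℂ) • (x + y))‖ := hg
  rw [map_smul, norm_smul, map_add] at hg'
  have h2 : ‖(2⁻¹ : ℂ)‖ = 2⁻¹ := by simp
  rw [h2] at hg'
  have hpar := parallelogram_law_with_norm ℂ (T g x) (T g y)
  have e1 : ‖T g x‖ ≤ μ := hle g x
  have e2 : ‖T g y‖ ≤ μ := hFy g
  have e3 : ‖x - y‖ ≤ C * ‖T g x - T g y‖ := by
    have h3 := hC g⁻¹ (T g (x - y))
    rw [hT, mul_inv_cancel, h1, map_sub] at h3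
    exact h3
  have e4 : ‖T g x - T g y‖ ^ 2 ≤ 8 * μ * ε := by
    have n1 := norm_nonneg (T g x)
    have n2 := norm_nonneg (T g y)
    have n3 := norm_nonneg (T g x + T g y)
    have m1 : ‖T g x‖ * ‖T g x‖ ≤ μ * μ := mul_le_mul e1 e1 n1 hμ0
    have m2 : ‖T g y‖ * ‖T g y‖ ≤ μ * μ := mul_le_mul e2 e2 n2 hμ0
    have m3 : 4 * μ ^ 2 - 8 * μ * ε ≤ ‖T g x + T g y‖ ^ 2 := by
      rcases le_or_gt ε μ with h4 | h4
      · nlinarith
      · have : 4 * μ ^ 2 - 8 * μ * ε ≤ 0 := by nlinarith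
        exact this.trans (by positivity)
    nlinarith
  have e5 : ‖x - y‖ ^ 2 ≤ C ^ 2 * (8 * μ * ε) := by
    calc ‖x - y‖ ^ 2 ≤ (C * ‖T g x - T g y‖) ^ 2 := by
          gcongr
      _ = C ^ 2 * ‖T g x - T g y‖ ^ 2 := by ring
      _ ≤ C ^ 2 * (8 * μ * ε) := by gcongr
  have e6 : C ^ 2 * (8 * μ + 1) * ε = ‖x - y‖ ^ 2 := by
    rw [hε]
    field_simp
  have e7 : 0 < C ^ 2 * ε := by positivity
  nlinarith

variable {N : Type*} [Fintype N]

/-- The sum of the squares of the absolute values of the coordinates. -/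
noncomputable def nrm (v : N → ℂ) : ℝ := ∑ i, ‖v i‖ ^ 2

/-- The real part of the Hermitian form. -/
noncomputable def quad (H : Matrix N N ℂ) (v : N → ℂ) : ℝ := (star v ⬝ᵥ (H *ᵥ v)).re

/-- `H` is a positive definite Hermitian matrix. -/
def IsPos (H : Matrix N N ℂ) : Prop := Hᴴ = H ∧ ∃ ε : ℝ, 0 < ε ∧ ∀ v, ε * nrm v ≤ quad H v

theorem nrm_eq (v : N → ℂ) : nrm v = (star v ⬝ᵥ v).re := by
  unfold nrm dotProduct
  rw [Complex.re_sum]
  refine Finset.sum_congr rfl fun i _ => ?_
  rw [Pi.star_apply, ← Complex.normSq_eq_norm_sq]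
  change _ = (starRingEnd ℂ (v i) * v i).re
  rw [Complex.conj_mul', ← Complex.ofReal_pow, Complex.ofReal_re, Complex.normSq_eq_norm_sq]

theorem quad_mul (A : Matrix N N ℂ) (v : N → ℂ) : quad (Aᴴ * A) v = nrm (A *ᵥ v) := by
  unfold quad
  rw [nrm_eq, Matrix.star_mulVec, ← Matrix.mulVec_mulVec, Matrix.dotProduct_mulVec]

theorem nrm_mulVec_le {c : ℝ} {A : Matrix N N ℂ} (hA : ∀ i j, ‖A i j‖ ≤ c)
    (v : N → ℂ) : nrm (A *ᵥ v) ≤ (Fintype.card N : ℝ) ^ 2 * c ^ 2 * nrm v := by
  have h1 : ∀ i, ‖(A *ᵥ v) i‖ ^ 2 ≤ (Fintype.card N : ℝ) * c ^ 2 * nrm v := by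
    intro i
    have hc : 0 ≤ c := (norm_nonneg _).trans (hA i i)
    have h2 : ‖(A *ᵥ v) i‖ ≤ ∑ j, c * ‖v j‖ := by
      unfold Matrix.mulVec dotProduct
      refine (norm_sum_le _ _).trans (Finset.sum_le_sum fun j _ => ?_)
      rw [norm_mul]
      exact mul_le_mul_of_nonneg_right (hA i j) (norm_nonneg _)
    rw [← Finset.mul_sum] at h2
    calc ‖(A *ᵥ v) i‖ ^ 2 ≤ (c * ∑ j, ‖v j‖) ^ 2 := by
          gcongr
      _ = c ^ 2 * (∑ j, ‖v j‖) ^ 2 := by ring
      _ ≤ c ^ 2 * ((Fintype.card N : ℝ) * ∑ j, ‖v j‖ ^ 2) := by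
          gcongr
          have := sq_sum_le_card_mul_sum_sq (s := (Finset.univ : Finset N)) (f := fun j => ‖v j‖)
          simpa using this
      _ = (Fintype.card N : ℝ) * c ^ 2 * nrm v := by unfold nrm; ring
  calc nrm (A *ᵥ v) ≤ ∑ _i : N, (Fintype.card N : ℝ) * c ^ 2 * nrm v :=
        Finset.sum_le_sum fun i _ => h1 i
    _ = (Fintype.card N : ℝ) ^ 2 * c ^ 2 * nrm v := by
        rw [Finset.sum_const, Finset.card_univ, nsmul_eq_mul]
        ring

variable [DecidableEq N]

/-- Matrices as a Hilbert space. -/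
noncomputable def eE (N : Type*) : EuclideanSpace ℂ (N × N) ≃ₗ[ℂ] Matrix N N ℂ where
  toFun x := Matrix.of fun i j => x (i, j)
  invFun A := WithLp.toLp 2 (fun p => A p.1 p.2)
  map_add' x y := by ext; rfl
  map_smul' c x := by ext; rfl
  left_inv x := by ext; rfl
  right_inv A := by ext; rfl

theorem norm_le_of_entries (x : EuclideanSpace ℂ (N × N)) {M : ℝ} (hM : 0 ≤ M)
    (h : ∀ i j, ‖eE N x i j‖ ≤ M) : ‖x‖ ≤ (Fintype.card (N × N) + 1 : ℝ) * M := by
  have h1 : ‖x‖ ^ 2 ≤ (Fintype.card (N × N) : ℝ) * M ^ 2 := by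
    rw [EuclideanSpace.norm_sq_eq]
    calc ∑ p, ‖x p‖ ^ 2 ≤ ∑ _p : N × N, M ^ 2 := by
          refine Finset.sum_le_sum fun p _ => ?_
          have := h p.1 p.2
          exact pow_le_pow_left₀ (norm_nonneg _) this 2
      _ = _ := by rw [Finset.sum_const, Finset.card_univ, nsmul_eq_mul]
  have h2 : (Fintype.card (N × N) : ℝ) * M ^ 2 ≤ ((Fintype.card (N × N) + 1 : ℝ) * M) ^ 2 := by
    have : (0 : ℝ) ≤ Fintype.card (N × N) := Nat.cast_nonneg _
    nlinarith [sq_nonneg M, mul_nonneg this (sq_nonneg M)]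
  exact abs_le_of_sq_le_sq' (h1.trans h2) (by positivity) |>.2

/-- **A bounded group of matrices preserves a positive definite Hermitian form.** -/
theorem exists_pos {G : Type*} [Group G] [Nonempty N] (ρ : G →* Matrix N N ℂ) {c : ℝ}
    (hρ : ∀ g i j, ‖ρ g i j‖ ≤ c) : ∃ H : Matrix N N ℂ, IsPos H ∧ ∀ g, (ρ g)ᴴ * H * ρ g = H := by
  classical
  obtain ⟨i₀⟩ := (inferInstance : Nonempty N)
  have hc0 : 0 ≤ c := (norm_nonneg _).trans (hρ 1 i₀ i₀)
  let T : G → EuclideanSpace ℂ (N × N) →ₗ[ℂ] EuclideanSpace ℂ (N × N) := fun g =>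
    { toFun := fun x => (eE N).symm ((ρ g)ᴴ * eE N x * ρ g)
      map_add' := fun x y => by rw [map_add, mul_add, add_mul, map_add]
      map_smul' := fun a x => by
        rw [map_smul, Matrix.mul_smul, Matrix.smul_mul, map_smul, RingHom.id_apply] }
  have hTdef : ∀ g x, eE N (T g x) = (ρ g)ᴴ * eE N x * ρ g := by
    intro g x
    exact (eE N).apply_symm_apply _
  have hT : ∀ g h x, T g (T h x) = T (h * g) x := by
    intro g h x
    apply (eE N).injective
    rw [hTdef, hTdef, hTdef, map_mul, Matrix.conjTranspose_mul]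
    simp only [mul_assoc]
  have h1 : ∀ x, T 1 x = x := by
    intro x
    apply (eE N).injective
    rw [hTdef, map_one, Matrix.conjTranspose_one, one_mul, mul_one]
  have hbound : ∀ g x, ‖T g x‖ ≤ ((Fintype.card (N × N) + 1 : ℝ) *
      ((Fintype.card N : ℝ) ^ 2 * c ^ 2)) * ‖x‖ := by
    intro g x
    rw [mul_assoc]
    refine norm_le_of_entries (T g x) (by positivity) fun i j => ?_
    rw [hTdef, Matrix.mul_apply]
    have h2 : ∀ l, ‖((ρ g)ᴴ * eE N x) i l * ρ g l j‖ ≤ (Fintype.card N : ℝ) * (c * ‖x‖) * c := by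
      intro l
      rw [norm_mul]
      refine mul_le_mul ?_ (hρ g l j) (norm_nonneg _) (by positivity)
      rw [Matrix.mul_apply]
      refine (norm_sum_le _ _).trans ?_
      rw [← nsmul_eq_mul, ← Finset.card_univ, ← Finset.sum_const]
      refine Finset.sum_le_sum fun k _ => ?_
      rw [norm_mul, Matrix.conjTranspose_apply, norm_star]
      exact mul_le_mul (hρ g k i) (PiLp.norm_apply_le x (k, l)) (norm_nonneg _) hc0
    refine (norm_sum_le _ _).trans ((Finset.sum_le_sum fun l _ => h2 l).trans (le_of_eq ?_))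
    rw [Finset.sum_const, Finset.card_univ, nsmul_eq_mul]
    ring
  let S : Set (EuclideanSpace ℂ (N × N)) := range fun g => (eE N).symm ((ρ g)ᴴ * ρ g)
  have hS1 : ∀ g, (eE N).symm ((ρ g)ᴴ * ρ g) = T g ((eE N).symm 1) := by
    intro g
    apply (eE N).injective
    rw [hTdef, (eE N).apply_symm_apply, (eE N).apply_symm_apply, mul_one]
  have hSb : Bornology.IsBounded S := by
    rw [isBounded_iff_forall_norm_le]
    refine ⟨((Fintype.card (N × N) + 1 : ℝ) * ((Fintype.card N : ℝ) ^ 2 * c ^ 2)) *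
      ‖(eE N).symm 1‖, ?_⟩
    rintro _ ⟨g, rfl⟩
    change ‖(eE N).symm ((ρ g)ᴴ * ρ g)‖ ≤ _
    rw [hS1]
    exact hbound g _
  let K := closure (convexHull ℝ S)
  have hKc : IsCompact K := by
    apply Metric.isCompact_of_isClosed_isBounded isClosed_closure
    exact (isBounded_convexHull.2 hSb).closure
  have hKconv : Convex ℝ K := (convex_convexHull ℝ S).closure
  have hSK : S ⊆ K := (subset_convexHull ℝ S).trans subset_closure
  have hKmin : ∀ Q : Set (EuclideanSpace ℂ (N × N)), IsClosed Q → Convex ℝ Q → S ⊆ Q → K ⊆ Q :=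
    fun Q h2 h3 h4 => closure_minimal (convexHull_min h4 h3) h2
  have hKne : K.Nonempty := ⟨_, hSK ⟨1, rfl⟩⟩
  have hTK : ∀ g, ∀ x ∈ K, T g x ∈ K := by
    intro g
    have h2 : K ⊆ (T g) ⁻¹' K := by
      refine hKmin _ (isClosed_closure.preimage (T g).continuous_of_finiteDimensional) ?_ ?_
      · exact hKconv.is_linear_preimage
          ⟨fun x y => map_add (T g) x y, fun (a : ℝ) x => by
            have := map_smul (T g) (a : ℂ) x
            rwa [Complex.coe_smul, Complex.coe_smul] at this⟩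
      · rintro _ ⟨h, rfl⟩
        apply hSK
        refine ⟨h * g, ?_⟩
        apply (eE N).injective
        change eE N ((eE N).symm ((ρ (h * g))ᴴ * ρ (h * g))) =
          eE N (T g ((eE N).symm ((ρ h)ᴴ * ρ h)))
        rw [hTdef, (eE N).apply_symm_apply, (eE N).apply_symm_apply, map_mul,
          Matrix.conjTranspose_mul]
        simp only [mul_assoc]
    exact fun x hx => h2 hx
  obtain ⟨x, hx, hfix⟩ := exists_fixed T hT h1 hbound hKc hKconv hKne hTK
  refine ⟨eE N x, ⟨?_, ?_⟩, fun g => ?_⟩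
  · have h2 : K ⊆ {y | (eE N y)ᴴ = eE N y} := by
      refine hKmin _ ?_ ?_ ?_
      · have e1 : Continuous fun y : EuclideanSpace ℂ (N × N) => eE N y :=
          (eE N).toLinearMap.continuous_of_finiteDimensional
        exact isClosed_eq e1.matrix_conjTranspose e1
      · intro y hy z hz a b _ _ _
        have e1 : ∀ (r : ℝ) (w : EuclideanSpace ℂ (N × N)), eE N (r • w) = (r : ℂ) • eE N w := by
          intro r w
          rw [← map_smul, Complex.coe_smul]
        simp only [mem_ofPred_eq] at hy hz ⊢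
        rw [map_add, e1, e1, Matrix.conjTranspose_add, Matrix.conjTranspose_smul,
          Matrix.conjTranspose_smul, hy, hz]
        simp
      · rintro _ ⟨g, rfl⟩
        simp only [mem_ofPred_eq, LinearEquiv.apply_symm_apply]
        rw [Matrix.conjTranspose_mul, Matrix.conjTranspose_conjTranspose]
    exact h2 hx
  · refine ⟨((Fintype.card N : ℝ) ^ 2 * (c + 1) ^ 2)⁻¹, ?_, ?_⟩
    · have : 0 < (Fintype.card N : ℝ) := Nat.cast_pos.2 Fintype.card_pos
      positivity
    · intro v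
      have h2 : K ⊆ {y | ((Fintype.card N : ℝ) ^ 2 * (c + 1) ^ 2)⁻¹ * nrm v ≤ quad (eE N y) v} := by
        have e1 : Continuous fun y : EuclideanSpace ℂ (N × N) => eE N y :=
          (eE N).toLinearMap.continuous_of_finiteDimensional
        refine hKmin _ ?_ ?_ ?_
        · refine isClosed_le continuous_const ?_
          unfold quad
          exact Complex.continuous_re.comp
            (continuous_const.dotProduct (e1.matrix_mulVec continuous_const))
        · intro y hy z hz a b ha hb hab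
          have e2 : ∀ (r : ℝ) (w : EuclideanSpace ℂ (N × N)), eE N (r • w) = (r : ℂ) • eE N w := by
            intro r w
            rw [← map_smul, Complex.coe_smul]
          have e3 : quad (eE N (a • y + b • z)) v = a * quad (eE N y) v + b * quad (eE N z) v := by
            unfold quad
            rw [map_add, e2, e2, Matrix.add_mulVec, Matrix.smul_mulVec, Matrix.smul_mulVec,
              dotProduct_add, dotProduct_smul, dotProduct_smul, smul_eq_mul, smul_eq_mul,
              Complex.add_re, Complex.re_ofReal_mul, Complex.re_ofReal_mul]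
          simp only [mem_ofPred_eq] at hy hz ⊢
          rw [e3]
          have e4 := mul_le_mul_of_nonneg_left hy ha
          have e5 := mul_le_mul_of_nonneg_left hz hb
          have e6 : a * (((Fintype.card N : ℝ) ^ 2 * (c + 1) ^ 2)⁻¹ * nrm v) +
              b * (((Fintype.card N : ℝ) ^ 2 * (c + 1) ^ 2)⁻¹ * nrm v) =
              ((Fintype.card N : ℝ) ^ 2 * (c + 1) ^ 2)⁻¹ * nrm v := by
            rw [← add_mul, hab, one_mul]
          linarith
        · rintro _ ⟨g, rfl⟩
          simp only [mem_ofPred_eq, LinearEquiv.apply_symm_apply]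
          rw [quad_mul]
          have e2 : nrm v ≤ (Fintype.card N : ℝ) ^ 2 * (c + 1) ^ 2 * nrm (ρ g *ᵥ v) := by
            have e3 := nrm_mulVec_le (A := ρ g⁻¹) (c := c + 1)
              (fun i j => (hρ g⁻¹ i j).trans (by linarith)) (ρ g *ᵥ v)
            rwa [Matrix.mulVec_mulVec, ← map_mul, inv_mul_cancel, map_one, Matrix.one_mulVec] at e3
          have : 0 < (Fintype.card N : ℝ) := Nat.cast_pos.2 Fintype.card_pos
          rw [inv_mul_le_iff₀ (by positivity)]
          exact e2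
      exact h2 hx
  · rw [← hTdef, hfix]

theorem quad_conj (H A : Matrix N N ℂ) (v : N → ℂ) : quad (Aᴴ * H * A) v = quad H (A *ᵥ v) := by
  unfold quad
  rw [Matrix.star_mulVec, mul_assoc, ← Matrix.mulVec_mulVec, ← Matrix.mulVec_mulVec,
    Matrix.dotProduct_mulVec]

/-- The matrices that preserve a positive definite form are bounded. -/
theorem entries_bounded {H : Matrix N N ℂ} (hH : IsPos H) :
    ∃ B : ℝ, 0 ≤ B ∧ ∀ A : Matrix N N ℂ, Aᴴ * H * A = H → ∀ i j, ‖A i j‖ ≤ B := by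
  obtain ⟨_, ε, hε, hH⟩ := hH
  have hq : ∀ j, 0 ≤ quad H (Pi.single j 1) := by
    intro j
    have := hH (Pi.single j 1)
    refine le_trans ?_ this
    unfold nrm
    positivity
  refine ⟨∑ j, quad H (Pi.single j 1) / ε + 1, ?_, ?_⟩
  · have : 0 ≤ ∑ j, quad H (Pi.single j 1) / ε :=
      Finset.sum_nonneg fun j _ => div_nonneg (hq j) hε.le
    linarith
  · intro A hA i j
    have h1 : ε * nrm (A *ᵥ Pi.single j 1) ≤ quad H (Pi.single j 1) := by
      have := hH (A *ᵥ Pi.single j 1)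
      rwa [← quad_conj, hA] at this
    have h2 : ‖A i j‖ ^ 2 ≤ nrm (A *ᵥ Pi.single j 1) := by
      unfold nrm
      rw [Matrix.mulVec_single_one]
      exact Finset.single_le_sum (f := fun i => ‖A.col j i‖ ^ 2) (fun _ _ => by positivity)
        (Finset.mem_univ i)
    have h3 : ‖A i j‖ ^ 2 ≤ ∑ j, quad H (Pi.single j 1) / ε := by
      refine le_trans ?_ (Finset.single_le_sum (f := fun j => quad H (Pi.single j 1) / ε)
        (fun j _ => div_nonneg (hq j) hε.le) (Finset.mem_univ j))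
      rw [le_div_iff₀ hε]
      nlinarith
    nlinarith [norm_nonneg (A i j), sq_nonneg (‖A i j‖ - 1)]

end Pool.Agent.K4H34.HH
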