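import Mathlib
import Pool.Agent.K4H34.HH.Inter
import Pool.Agent.K4H34.HH.Fix

/-!
# Gluing intertwining maps and Hermitian forms
-/

set_option autoImplicit false
set_option linter.unusedSectionVars false

namespace Pool.Agent.K4H34.HH

open Matrix

open scoped ComplexOrder

section twist

variable {G : Type*} [Group G] {N : Type*} [Fintype N] [DecidableEq N]

/-- The conjugate of a representation under an automorphism of the complex numbers. -/
def tw (σ : ℂ ≃+* ℂ) (ρ : G →* Matrix N N ℂ) : G →* Matrix N N ℂ :=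
  ((RingHom.mapMatrix (m := N) (σ : ℂ →+* ℂ)) : Matrix N N ℂ →* Matrix N N ℂ).comp ρ

theorem tw_apply (σ : ℂ ≃+* ℂ) (ρ : G →* Matrix N N ℂ) (g : G) :
    tw σ ρ g = (ρ g).map σ := rfl

theorem trace_map (σ : ℂ ≃+* ℂ) (A : Matrix N N ℂ) : (A.map σ).trace = σ A.trace := by
  unfold Matrix.trace
  rw [map_sum]
  rfl

theorem spans_tw (σ : ℂ ≃+* ℂ) {ρ : G →* Matrix N N ℂ} (h : Spans ρ) : Spans (tw σ ρ) := by
  unfold Spans
  rw [eq_top_iff]
  intro A _
  have h1 : ∀ B ∈ Submodule.span ℂ (Set.range ρ),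
      B.map σ ∈ Submodule.span ℂ (Set.range (tw σ ρ)) := by
    intro B hB
    induction hB using Submodule.span_induction with
    | mem B hB =>
      obtain ⟨g, rfl⟩ := hB
      exact Submodule.subset_span ⟨g, rfl⟩
    | zero =>
      have : (0 : Matrix N N ℂ).map σ = 0 := by ext; simp
      rw [this]
      exact Submodule.zero_mem _
    | add B C _ _ hB hC =>
      have : (B + C).map σ = B.map σ + C.map σ := by ext; simp
      rw [this]
      exact Submodule.add_mem _ hB hC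
    | smul c B _ hB =>
      have : (c • B).map σ = σ c • B.map σ := by ext; simp
      rw [this]
      exact Submodule.smul_mem _ _ hB
  have h2 := h1 (A.map σ.symm) (by rw [h]; trivial)
  have h3 : (A.map σ.symm).map σ = A := by ext; simp
  rwa [h3] at h2

/-- The conjugate transpose of the inverse. -/
def dual (ρ : G →* Matrix N N ℂ) : G →* Matrix N N ℂ where
  toFun g := (ρ g⁻¹)ᴴ
  map_one' := by simp
  map_mul' g h := by rw [_root_.mul_inv_rev, map_mul, Matrix.conjTranspose_mul]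

theorem dual_apply (ρ : G →* Matrix N N ℂ) (g : G) : dual ρ g = (ρ g⁻¹)ᴴ := rfl

theorem spans_dual {ρ : G →* Matrix N N ℂ} (h : Spans ρ) : Spans (dual ρ) := by
  unfold Spans
  rw [eq_top_iff]
  intro A _
  have h1 : ∀ B ∈ Submodule.span ℂ (Set.range ρ),
      Bᴴ ∈ Submodule.span ℂ (Set.range (dual ρ)) := by
    intro B hB
    induction hB using Submodule.span_induction with
    | mem B hB =>
      obtain ⟨g, rfl⟩ := hB
      refine Submodule.subset_span ⟨g⁻¹, ?_⟩
      rw [dual_apply, inv_inv]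
    | zero => simp
    | add B C _ _ hB hC =>
      rw [Matrix.conjTranspose_add]
      exact Submodule.add_mem _ hB hC
    | smul c B _ hB =>
      rw [Matrix.conjTranspose_smul]
      exact Submodule.smul_mem _ _ hB
  have h2 := h1 Aᴴ (by rw [h]; trivial)
  rwa [Matrix.conjTranspose_conjTranspose] at h2

/-- Bounded traces of an irreducible representation bound the matrix entries. -/
theorem entries_of_traces [Nonempty N] {ρ : G →* Matrix N N ℂ} (h : Spans ρ) {C : ℝ}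
    (hC : ∀ g, ‖(ρ g).trace‖ ≤ C) : ∃ c : ℝ, ∀ g i j, ‖ρ g i j‖ ≤ c := by
  have h1 : ∀ B ∈ Submodule.span ℂ (Set.range ρ), ∃ c : ℝ, ∀ g, ‖(ρ g * B).trace‖ ≤ c := by
    intro B hB
    induction hB using Submodule.span_induction with
    | mem B hB =>
      obtain ⟨g', rfl⟩ := hB
      exact ⟨C, fun g => by rw [← map_mul]; exact hC _⟩
    | zero => exact ⟨0, fun g => by simp⟩
    | add B B' _ _ hB hB' =>
      obtain ⟨c, hc⟩ := hB
      obtain ⟨c', hc'⟩ := hB'
      refine ⟨c + c', fun g => ?_⟩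
      rw [mul_add, Matrix.trace_add]
      exact (norm_add_le _ _).trans (add_le_add (hc g) (hc' g))
    | smul a B _ hB =>
      obtain ⟨c, hc⟩ := hB
      refine ⟨‖a‖ * c, fun g => ?_⟩
      rw [Matrix.mul_smul, Matrix.trace_smul, norm_smul]
      exact mul_le_mul_of_nonneg_left (hc g) (norm_nonneg _)
  have h2 : ∀ i j : N, ∃ c : ℝ, ∀ g, ‖ρ g i j‖ ≤ c := by
    intro i j
    obtain ⟨c, hc⟩ := h1 (Matrix.single j i 1) (by rw [h]; trivial)
    refine ⟨c, fun g => ?_⟩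
    have h3 : (ρ g * Matrix.single j i 1).trace = ρ g i j := by
      rw [Matrix.trace_mul_single]
      simp
    rw [← h3]
    exact hc g
  choose c hc using h2
  refine ⟨∑ i, ∑ j, |c i j|, fun g i j => (hc i j g).trans ?_⟩
  refine (le_abs_self _).trans ?_
  refine (Finset.single_le_sum (f := fun j => |c i j|) (fun _ _ => abs_nonneg _)
    (Finset.mem_univ j)).trans ?_
  exact Finset.single_le_sum (f := fun i => ∑ j, |c i j|)
    (fun _ _ => Finset.sum_nonneg fun _ _ => abs_nonneg _) (Finset.mem_univ i)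

end twist

section blocks

variable {G : Type*} [Group G] {ι : Type*} [Fintype ι] [DecidableEq ι]

theorem fixed_vec (hι : 2 ≤ Fintype.card ι) {ρ : G →* Matrix ι ι ℂ} (h : Spans ρ) {u : ι → ℂ}
    (hu : ∀ g, ρ g *ᵥ u = u) : u = 0 := by
  by_contra hne
  obtain ⟨i, hi⟩ := Function.ne_iff.1 hne
  have h1 : ∀ B ∈ Submodule.span ℂ (Set.range ρ), ∃ c : ℂ, B *ᵥ u = c • u := by
    intro B hB
    induction hB using Submodule.span_induction with
    | mem B hB =>
      obtain ⟨g, rfl⟩ := hB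
      exact ⟨1, by rw [hu, one_smul]⟩
    | zero => exact ⟨0, by rw [Matrix.zero_mulVec, zero_smul]⟩
    | add B B' _ _ hB hB' =>
      obtain ⟨c, hc⟩ := hB
      obtain ⟨c', hc'⟩ := hB'
      exact ⟨c + c', by rw [Matrix.add_mulVec, hc, hc', add_smul]⟩
    | smul a B _ hB =>
      obtain ⟨c, hc⟩ := hB
      exact ⟨a * c, by rw [Matrix.smul_mulVec, hc, smul_smul]⟩
  obtain ⟨j, hj⟩ : ∃ j, j ≠ i := by
    by_contra hcon
    push Not at hcon
    have : Fintype.card ι ≤ 1 := Fintype.card_le_one_iff.2 fun a b => by rw [hcon a, hcon b]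
    omega
  obtain ⟨c, hc⟩ := h1 (Matrix.single j i 1) (by rw [h]; trivial)
  have h2 : ∀ a, (Matrix.single j i (1 : ℂ) *ᵥ u) a = if j = a then u i else 0 := by
    intro a
    simp only [Matrix.mulVec, dotProduct, Matrix.single_apply]
    by_cases ha : j = a
    · simp [ha]
    · simp [ha]
  have h3 := congrFun hc i
  rw [h2, if_neg hj, Pi.smul_apply, smul_eq_mul, eq_comm, mul_eq_zero] at h3
  have hc0 : c = 0 := h3.resolve_right hi
  have h4 := congrFun hc j
  rw [h2, if_pos rfl, hc0, zero_smul] at h4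
  exact hi h4

/-- The representation extended by the trivial representation of dimension one. -/
def ext1 (A : Matrix ι ι ℂ) : Matrix (ι ⊕ Unit) (ι ⊕ Unit) ℂ := Matrix.fromBlocks A 0 0 1

/-- Diagonal blocks. -/
def dg (Q : Matrix ι ι ℂ) (a : ℂ) : Matrix (ι ⊕ Unit) (ι ⊕ Unit) ℂ :=
  Matrix.fromBlocks Q 0 0 (a • 1)

theorem block_form (hι : 2 ≤ Fintype.card ι) {ρ ρ' : G →* Matrix ι ι ℂ} (h : Spans ρ)
    (h' : Spans ρ') {M : Matrix (ι ⊕ Unit) (ι ⊕ Unit) ℂ}
    (hM : ∀ g, ext1 (ρ' g) * M = M * ext1 (ρ g)) :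
    ∃ (Q : Matrix ι ι ℂ) (a : ℂ), M = dg Q a ∧ ∀ g, ρ' g * Q = Q * ρ g := by
  have h1 : ∀ g, ρ' g * M.toBlocks₁₁ = M.toBlocks₁₁ * ρ g ∧
      ρ' g * M.toBlocks₁₂ = M.toBlocks₁₂ ∧ M.toBlocks₂₁ = M.toBlocks₂₁ * ρ g := by
    intro g
    have h2 := hM g
    rw [← Matrix.fromBlocks_toBlocks M] at h2
    unfold ext1 at h2
    rw [Matrix.fromBlocks_multiply, Matrix.fromBlocks_multiply, Matrix.fromBlocks_inj] at h2
    obtain ⟨e1, e2, e3, _⟩ := h2
    simp only [Matrix.zero_mul, Matrix.mul_zero, add_zero, zero_add, Matrix.one_mul,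
      Matrix.mul_one] at e1 e2 e3
    exact ⟨e1, e2, e3⟩
  have h12 : M.toBlocks₁₂ = 0 := by
    have h2 : M.toBlocks₁₂.col () = 0 := by
      apply fixed_vec hι h'
      intro g
      have h3 := (h1 g).2.1
      funext i
      have h4 := congrFun (congrFun h3 i) ()
      exact h4
    ext i u
    exact congrFun h2 i
  have h21 : M.toBlocks₂₁ = 0 := by
    have h2 : star (M.toBlocks₂₁.row ()) = 0 := by
      apply fixed_vec hι (spans_dual h)
      intro g
      have h3 := (h1 g⁻¹).2.2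
      rw [dual_apply, ← Matrix.star_vecMul]
      congr 1
      funext i
      have h4 := congrFun (congrFun h3 ()) i
      exact h4.symm
    ext u i
    have h3 := congrFun h2 i
    simpa using h3
  refine ⟨M.toBlocks₁₁, M.toBlocks₂₂ () (), ?_, fun g => (h1 g).1⟩
  conv_lhs => rw [← Matrix.fromBlocks_toBlocks M, h12, h21]
  unfold dg
  congr 1
  ext u v
  simp

theorem dg_mul (Q R : Matrix ι ι ℂ) (a b : ℂ) : dg Q a * dg R b = dg (Q * R) (a * b) := by
  unfold dg
  rw [Matrix.fromBlocks_multiply]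
  simp [smul_smul, mul_comm]

theorem dg_isUnit {Q : Matrix ι ι ℂ} {a : ℂ} (h : IsUnit (dg Q a)) : IsUnit Q ∧ a ≠ 0 := by
  rw [Matrix.isUnit_iff_isUnit_det, isUnit_iff_ne_zero] at h
  unfold dg at h
  rw [Matrix.det_fromBlocks_zero₂₁] at h
  refine ⟨?_, ?_⟩
  · rw [Matrix.isUnit_iff_isUnit_det, isUnit_iff_ne_zero]
    exact left_ne_zero_of_mul h
  · have := right_ne_zero_of_mul h
    simpa using this

/-- The first blocks of two intertwining matrices are proportional. -/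
theorem proportional (hι : 2 ≤ Fintype.card ι) {ρ ρ' : G →* Matrix ι ι ℂ} (h : Spans ρ)
    {Q Q' : Matrix ι ι ℂ} (hQ : ∀ g, ρ' g * Q = Q * ρ g) (hQ' : ∀ g, ρ' g * Q' = Q' * ρ g)
    (hu : IsUnit Q) (hu' : IsUnit Q') : ∃ c : ℂ, c ≠ 0 ∧ Q = c • Q' := by
  obtain ⟨R, hR⟩ := hu'
  have hR1 : (↑R⁻¹ : Matrix ι ι ℂ) * Q' = 1 := by rw [← hR]; exact R.inv_mul
  have hR2 : Q' * (↑R⁻¹ : Matrix ι ι ℂ) = 1 := by rw [← hR]; exact R.mul_inv
  obtain ⟨c, hc⟩ := scalar_of_commute h (A := (↑R⁻¹ : Matrix ι ι ℂ) * Q) (by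
    intro g
    have e1 : ρ g * (↑R⁻¹ : Matrix ι ι ℂ) = (↑R⁻¹ : Matrix ι ι ℂ) * ρ' g := by
      have e2 : (↑R⁻¹ : Matrix ι ι ℂ) * (ρ' g * Q') * (↑R⁻¹ : Matrix ι ι ℂ) =
          (↑R⁻¹ : Matrix ι ι ℂ) * (Q' * ρ g) * (↑R⁻¹ : Matrix ι ι ℂ) := by rw [hQ']
      have e3 : (↑R⁻¹ : Matrix ι ι ℂ) * (ρ' g * Q') * (↑R⁻¹ : Matrix ι ι ℂ) =
          (↑R⁻¹ : Matrix ι ι ℂ) * ρ' g := by
        rw [mul_assoc, mul_assoc, hR2, mul_one]
      have e4 : (↑R⁻¹ : Matrix ι ι ℂ) * (Q' * ρ g) * (↑R⁻¹ : Matrix ι ι ℂ) =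
          ρ g * (↑R⁻¹ : Matrix ι ι ℂ) := by
        rw [← mul_assoc, hR1, one_mul]
      rw [← e4, ← e2, e3]
    rw [← mul_assoc, e1, mul_assoc, hQ, mul_assoc])
  have hQc : Q = c • Q' := by
    have e1 : Q' * ((↑R⁻¹ : Matrix ι ι ℂ) * Q) = Q := by rw [← mul_assoc, hR2, one_mul]
    rw [← e1, hc, Matrix.mul_smul, mul_one]
  refine ⟨c, ?_, hQc⟩
  rintro rfl
  rw [zero_smul] at hQc
  rw [hQc, Matrix.isUnit_iff_isUnit_det, isUnit_iff_ne_zero] at hu
  apply hu
  have : Nonempty ι := by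
    by_contra hcon
    rw [not_nonempty_iff] at hcon
    have := Fintype.card_eq_zero (α := ι)
    omega
  exact Matrix.det_zero

end blocks

end Pool.Agent.K4H34.HH
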