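import Mathlib
import Pool.Agent.K4H34.HH.Defs
import Pool.Agent.K4H34.HH.Glue

/-!
# Conjugates of hybrids
-/

set_option autoImplicit false
set_option linter.unusedSectionVars false

namespace Pool.Agent.K4H34.HH

open Matrix

open scoped ComplexOrder

section general

variable {N : Type*} [Fintype N] [DecidableEq N]

/-- The representation given by a group of matrices. -/
def coeR (Γ : Subgroup (GL' N)) : Γ →* Matrix N N ℂ := (Units.coeHom (Matrix N N ℂ)).comp Γ.subtype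

/-- The elements on which two homomorphisms are intertwined. -/
def eqSub {K : Type*} [Group K] (f g : K →* Matrix N N ℂ) (D : Matrix N N ℂ) : Subgroup K where
  carrier := {k | f k * D = D * g k}
  one_mem' := by simp
  mul_mem' := by
    intro a b ha hb
    change f (a * b) * D = D * g (a * b)
    change f a * D = D * g a at ha
    change f b * D = D * g b at hb
    rw [map_mul, map_mul, mul_assoc, hb, ← mul_assoc, ha, mul_assoc]
  inv_mem' := by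
    intro a ha
    change f a⁻¹ * D = D * g a⁻¹
    change f a * D = D * g a at ha
    have h1 : f a⁻¹ * (f a * D) * g a⁻¹ = f a⁻¹ * (D * g a) * g a⁻¹ := by rw [ha]
    have h2 : f a⁻¹ * (f a * D) * g a⁻¹ = D * g a⁻¹ := by
      rw [← mul_assoc, ← map_mul, inv_mul_cancel, map_one, one_mul]
    have h3 : f a⁻¹ * (D * g a) * g a⁻¹ = f a⁻¹ * D := by
      rw [mul_assoc, mul_assoc, ← map_mul, mul_inv_cancel, map_one, mul_one]
    rw [← h3, ← h1, h2]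

theorem mem_eqSub {K : Type*} [Group K] {f g : K →* Matrix N N ℂ} {D : Matrix N N ℂ} {k : K} :
    k ∈ eqSub f g D ↔ f k * D = D * g k := Iff.rfl

/-- The extension of a matrix by a number. -/
def dn (P : Matrix N N ℂ) (b : ℂ) : Matrix (N ⊕ Unit) (N ⊕ Unit) ℂ :=
  Matrix.fromBlocks P 0 0 (b • 1)

theorem quad_dn (P : Matrix N N ℂ) (b : ℝ) (v : N ⊕ Unit → ℂ) :
    quad (dn P b) v = quad P (fun i => v (Sum.inl i)) + b * ‖v (Sum.inr ())‖ ^ 2 := by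
  have h1 : v = Sum.elim (fun i => v (Sum.inl i)) (fun _ => v (Sum.inr ())) := by
    funext x
    rcases x with x | x <;> rfl
  unfold quad dn
  conv_lhs => rw [h1]
  rw [Matrix.fromBlocks_mulVec]
  simp only [Sum.elim_comp_inl, Sum.elim_comp_inr, Matrix.zero_mulVec, add_zero, zero_add]
  have h2 : ∀ (w : N → ℂ) (y : Unit → ℂ) (w' : N → ℂ) (y' : Unit → ℂ),
      star (Sum.elim w y) ⬝ᵥ Sum.elim w' y' = star w ⬝ᵥ w' + star (y ()) * y' () := by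
    intro w y w' y'
    simp [dotProduct, Fintype.sum_sum_type]
  rw [h2, Complex.add_re]
  congr 1
  rw [Matrix.smul_mulVec, Matrix.one_mulVec, Pi.smul_apply, smul_eq_mul]
  change (starRingEnd ℂ (v (Sum.inr ())) * ((b : ℂ) * v (Sum.inr ()))).re = _
  rw [show starRingEnd ℂ (v (Sum.inr ())) * ((b : ℂ) * v (Sum.inr ())) =
    (b : ℂ) * (starRingEnd ℂ (v (Sum.inr ())) * v (Sum.inr ())) by ring,
    Complex.conj_mul', Complex.re_ofReal_mul, ← Complex.ofReal_pow, Complex.ofReal_re]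

theorem nrm_sum (v : N ⊕ Unit → ℂ) :
    nrm v = nrm (fun i => v (Sum.inl i)) + ‖v (Sum.inr ())‖ ^ 2 := by
  unfold nrm
  rw [Fintype.sum_sum_type]
  simp

theorem isPos_dn {P : Matrix N N ℂ} (hP : IsPos P) {b : ℝ} (hb : 0 < b) : IsPos (dn P b) := by
  obtain ⟨h1, ε, hε, h2⟩ := hP
  refine ⟨?_, min ε b, lt_min hε hb, fun v => ?_⟩
  · unfold dn
    rw [Matrix.fromBlocks_conjTranspose, h1]
    simp
  · rw [quad_dn, nrm_sum, mul_add]
    have e1 : min ε b * nrm (fun i => v (Sum.inl i)) ≤ quad P (fun i => v (Sum.inl i)) := by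
      refine le_trans ?_ (h2 _)
      refine mul_le_mul_of_nonneg_right (min_le_left _ _) ?_
      unfold nrm
      positivity
    have e2 : min ε b * ‖v (Sum.inr ())‖ ^ 2 ≤ b * ‖v (Sum.inr ())‖ ^ 2 :=
      mul_le_mul_of_nonneg_right (min_le_right _ _) (by positivity)
    linarith

theorem isPos_diag {P : Matrix N N ℂ} (hP : IsPos P) (i : N) : ∃ a : ℝ, 0 < a ∧ P i i = a := by
  obtain ⟨h1, ε, hε, h2⟩ := hP
  refine ⟨(P i i).re, ?_, ?_⟩
  · have h3 := h2 (Pi.single i 1)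
    have h4 : quad P (Pi.single i 1) = (P i i).re := by
      unfold quad
      rw [Matrix.mulVec_single_one, ← Pi.single_star]
      simp
    have h5 : nrm (Pi.single i (1 : ℂ) : N → ℂ) = 1 := by
      unfold nrm
      rw [Finset.sum_eq_single i]
      · simp
      · intro j _ hj
        simp [Pi.single_eq_of_ne hj]
      · intro h
        exact absurd (Finset.mem_univ i) h
    rw [h4, h5] at h3
    linarith
  · have h3 := congrFun (congrFun h1 i) i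
    rw [Matrix.conjTranspose_apply] at h3
    exact (Complex.conj_eq_iff_re.1 h3).symm

theorem isPos_isUnit {P : Matrix N N ℂ} (hP : IsPos P) : IsUnit P := by
  rw [Matrix.isUnit_iff_isUnit_det, isUnit_iff_ne_zero]
  intro hdet
  obtain ⟨v, hv, hPv⟩ := Matrix.exists_mulVec_eq_zero_iff.2 hdet
  obtain ⟨h1, ε, hε, h2⟩ := hP
  have h3 := h2 v
  have h4 : quad P v = 0 := by
    unfold quad
    rw [hPv]
    simp
  rw [h4] at h3
  obtain ⟨i, hi⟩ := Function.ne_iff.1 hv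
  have h5 : 0 < nrm v := by
    unfold nrm
    refine Finset.sum_pos' (fun _ _ => by positivity) ⟨i, Finset.mem_univ i, ?_⟩
    have : 0 < ‖v i‖ := norm_pos_iff.2 hi
    positivity
  nlinarith

end general

section hybrid

variable {m : Type*} [Fintype m] [DecidableEq m]

theorem extend_eq (A : Matrix m m ℂ) : extend A = ext1 A := rfl

theorem extend_mul_dn {A A' P : Matrix m m ℂ} (h : A' * P = P * A) (b : ℂ) :
    extend A' * dn P b = dn P b * extend A := by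
  unfold dn
  change Matrix.fromBlocks A' 0 0 1 * _ = _ * Matrix.fromBlocks A 0 0 1
  rw [Matrix.fromBlocks_multiply, Matrix.fromBlocks_multiply]
  simp [h]

/-- The exchange of the last two coordinates, on matrices. -/
def sw : Matrix ((m ⊕ Unit) ⊕ Unit) ((m ⊕ Unit) ⊕ Unit) ℂ ≃ₐ[ℂ]
    Matrix ((m ⊕ Unit) ⊕ Unit) ((m ⊕ Unit) ⊕ Unit) ℂ :=
  Matrix.reindexAlgEquiv ℂ ℂ (swapLast (m := m))

theorem sw_apply (A : Matrix ((m ⊕ Unit) ⊕ Unit) ((m ⊕ Unit) ⊕ Unit) ℂ) (x y) :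
    sw A x y = A (swapLast.symm x) (swapLast.symm y) := rfl

theorem sw_dn (Q : Matrix m m ℂ) (a b : ℂ) : sw (dn (dg Q a) b) = dn (dg Q b) a := by
  ext x y
  rw [sw_apply]
  rcases x with (x | x) | x <;> rcases y with (y | y) | y <;>
    simp [swapLast, dn, dg]

/-- Intertwining matrices for the two groups give one for the hybrid. -/
theorem hybrid_inter {Γ₁ Γ₂ : Subgroup (GL' (m ⊕ Unit))}
    (f g : GL' (m ⊕ Unit) →* Matrix (m ⊕ Unit) (m ⊕ Unit) ℂ)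
    (F F' : GL' ((m ⊕ Unit) ⊕ Unit) →* Matrix ((m ⊕ Unit) ⊕ Unit) ((m ⊕ Unit) ⊕ Unit) ℂ)
    (hF : ∀ γ, F (extendGL γ) = extend (f γ)) (hF' : ∀ γ, F' (extendGL γ) = extend (g γ))
    (hFs : ∀ x, F (swapGL x) = sw (F x)) (hFs' : ∀ x, F' (swapGL x) = sw (F' x))
    {Q₁ Q₂ : Matrix m m ℂ} {a₁ a₂ c : ℂ} (hQ : Q₁ = c • Q₂)
    (h1 : ∀ γ ∈ Γ₁, f γ * dg Q₁ a₁ = dg Q₁ a₁ * g γ)
    (h2 : ∀ γ ∈ Γ₂, f γ * dg Q₂ a₂ = dg Q₂ a₂ * g γ) :
    ∀ γ ∈ hybrid Γ₁ Γ₂, F γ * dn (dg Q₁ a₁) (c * a₂) = dn (dg Q₁ a₁) (c * a₂) * F' γ := by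
  have hle : hybrid Γ₁ Γ₂ ≤ eqSub F F' (dn (dg Q₁ a₁) (c * a₂)) := by
    unfold hybrid
    refine sup_le ?_ ?_
    · rintro _ ⟨γ, hγ, rfl⟩
      rw [mem_eqSub, hF, hF']
      exact extend_mul_dn (h1 γ hγ) _
    · rintro _ ⟨_, ⟨γ, hγ, rfl⟩, rfl⟩
      rw [mem_eqSub, hFs, hFs', hF, hF', ← sw_dn, ← map_mul, ← map_mul]
      congr 1
      refine extend_mul_dn ?_ _
      have e1 : dg Q₁ (c * a₂) = c • dg Q₂ a₂ := by
        unfold dg
        rw [Matrix.fromBlocks_smul, hQ]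
        simp [smul_smul]
      rw [e1, Matrix.mul_smul, Matrix.smul_mul, h2 γ hγ]
  exact fun γ hγ => hle hγ

/-- The inclusion of the group of units. -/
def co (N : Type*) [Fintype N] [DecidableEq N] : GL' N →* Matrix N N ℂ :=
  Units.coeHom (Matrix N N ℂ)

theorem map_extend (σ : ℂ ≃+* ℂ) (A : Matrix m m ℂ) : (extend A).map σ = extend (A.map σ) := by
  change (Matrix.fromBlocks A 0 0 1).map σ = Matrix.fromBlocks (A.map σ) 0 0 1
  rw [Matrix.fromBlocks_map]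
  congr 1
  · ext; simp
  · ext; simp
  · ext; simp [Matrix.one_apply]

theorem star_extend (A : Matrix m m ℂ) : (extend A)ᴴ = extend Aᴴ := by
  change (Matrix.fromBlocks A 0 0 1)ᴴ = Matrix.fromBlocks Aᴴ 0 0 1
  rw [Matrix.fromBlocks_conjTranspose]
  simp

theorem map_sw (σ : ℂ ≃+* ℂ) (A : Matrix ((m ⊕ Unit) ⊕ Unit) ((m ⊕ Unit) ⊕ Unit) ℂ) :
    (sw A).map σ = sw (A.map σ) := rfl

theorem star_sw (A : Matrix ((m ⊕ Unit) ⊕ Unit) ((m ⊕ Unit) ⊕ Unit) ℂ) :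
    (sw A)ᴴ = sw Aᴴ := rfl

theorem tw_extend (σ : ℂ ≃+* ℂ) (γ : GL' m) :
    tw σ (co (m ⊕ Unit)) (extendGL γ) = extend (tw σ (co m) γ) := map_extend σ γ.1

theorem dual_tw_extend (σ : ℂ ≃+* ℂ) (γ : GL' m) :
    dual (tw σ (co (m ⊕ Unit))) (extendGL γ) = extend (dual (tw σ (co m)) γ) := by
  rw [dual_apply, dual_apply, ← map_inv, tw_extend, star_extend]

theorem tw_swap (σ : ℂ ≃+* ℂ) (x : GL' ((m ⊕ Unit) ⊕ Unit)) :
    tw σ (co ((m ⊕ Unit) ⊕ Unit)) (swapGL x) = sw (tw σ (co ((m ⊕ Unit) ⊕ Unit)) x) := rfl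

theorem dual_tw_swap (σ : ℂ ≃+* ℂ) (x : GL' ((m ⊕ Unit) ⊕ Unit)) :
    dual (tw σ (co ((m ⊕ Unit) ⊕ Unit))) (swapGL x) =
      sw (dual (tw σ (co ((m ⊕ Unit) ⊕ Unit))) x) := by
  rw [dual_apply, dual_apply, ← map_inv, tw_swap, star_sw]

variable {Γ₁ Γ₂ : Subgroup (GL' (m ⊕ Unit))} {Γ₃ : Subgroup (GL' m)}

/-- If an automorphism fixes the traces of both groups then it fixes the traces of the hybrid. -/
theorem fixed_case (hm : 2 ≤ Fintype.card m) (h3 : Spans (coeR Γ₃)) (h1 : Spans (coeR Γ₁))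
    (h2 : Spans (coeR Γ₂)) (hle1 : Γ₃.map extendGL ≤ Γ₁) (hle2 : Γ₃.map extendGL ≤ Γ₂)
    (σ : ℂ ≃+* ℂ) (hσ1 : TracesFixed σ Γ₁) (hσ2 : TracesFixed σ Γ₂) :
    TracesFixed σ (hybrid Γ₁ Γ₂) := by
  have key : ∀ Γ : Subgroup (GL' (m ⊕ Unit)), Spans (coeR Γ) → Γ₃.map extendGL ≤ Γ →
      TracesFixed σ Γ → ∃ (Q : Matrix m m ℂ) (a : ℂ), IsUnit (dg Q a) ∧
        (∀ γ ∈ Γ, tw σ (co (m ⊕ Unit)) γ * dg Q a = dg Q a * co (m ⊕ Unit) γ) ∧
        ∀ γ : Γ₃, tw σ (coeR Γ₃) γ * Q = Q * coeR Γ₃ γ := by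
    intro Γ hΓ hle hσ
    obtain ⟨P, hPu, hP⟩ := exists_intertwiner hΓ (spans_tw σ hΓ) (fun γ => by
      rw [tw_apply, trace_map]
      exact (hσ γ.1 γ.2).symm)
    obtain ⟨Q, a, rfl, hQ⟩ := block_form hm h3 (spans_tw σ h3) (M := P) (by
      intro γ
      have h4 := hP ⟨extendGL γ.1, hle ⟨γ.1, γ.2, rfl⟩⟩
      have h5 : tw σ (coeR Γ) ⟨extendGL γ.1, hle ⟨γ.1, γ.2, rfl⟩⟩ =
          ext1 (tw σ (coeR Γ₃) γ) := map_extend σ _
      rw [h5] at h4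
      exact h4)
    exact ⟨Q, a, hPu, fun γ hγ => hP ⟨γ, hγ⟩, hQ⟩
  obtain ⟨Q₁, a₁, hu1, e1, q1⟩ := key Γ₁ h1 hle1 hσ1
  obtain ⟨Q₂, a₂, hu2, e2, q2⟩ := key Γ₂ h2 hle2 hσ2
  obtain ⟨c, hc0, hc⟩ := proportional hm h3 q1 q2 (dg_isUnit hu1).1 (dg_isUnit hu2).1
  have hall := hybrid_inter (tw σ (co (m ⊕ Unit))) (co (m ⊕ Unit))
    (tw σ (co ((m ⊕ Unit) ⊕ Unit))) (co ((m ⊕ Unit) ⊕ Unit)) (tw_extend σ) (fun _ => rfl)
    (tw_swap σ) (fun _ => rfl) hc e1 e2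
  have hDu : IsUnit (dn (dg Q₁ a₁) (c * a₂)) := by
    rw [Matrix.isUnit_iff_isUnit_det, isUnit_iff_ne_zero]
    unfold dn
    rw [Matrix.det_fromBlocks_zero₂₁]
    have e3 : (dg Q₁ a₁).det ≠ 0 := by
      rwa [Matrix.isUnit_iff_isUnit_det, isUnit_iff_ne_zero] at hu1
    have e4 : ((c * a₂) • (1 : Matrix Unit Unit ℂ)).det ≠ 0 := by
      simpa using ⟨hc0, (dg_isUnit hu2).2⟩
    exact mul_ne_zero e3 e4
  obtain ⟨U, hU⟩ := hDu
  intro γ hγ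
  have h4 := hall γ hγ
  rw [← hU] at h4
  have h5 : γ.1.map σ = U.1 * γ.1 * (U⁻¹).1 := by
    have e3 : γ.1.map σ * U.1 * (U⁻¹).1 = U.1 * γ.1 * (U⁻¹).1 := congrArg (· * (U⁻¹).1) h4
    rwa [mul_assoc, U.mul_inv, mul_one] at e3
  rw [← trace_map, h5, Matrix.trace_mul_comm, ← mul_assoc, U.inv_mul, one_mul]

/-- If the conjugates of the traces of both groups are bounded then so are those of the traces of the
hybrid. -/
theorem bounded_case (hm : 2 ≤ Fintype.card m) (h3 : Spans (coeR Γ₃)) (h1 : Spans (coeR Γ₁))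
    (h2 : Spans (coeR Γ₂)) (hle1 : Γ₃.map extendGL ≤ Γ₁) (hle2 : Γ₃.map extendGL ≤ Γ₂)
    (σ : ℂ ≃+* ℂ) (hσ1 : TracesBounded σ Γ₁) (hσ2 : TracesBounded σ Γ₂) :
    TracesBounded σ (hybrid Γ₁ Γ₂) := by
  have hmne : Nonempty m := by
    rw [← Fintype.card_pos_iff]
    omega
  have key : ∀ Γ : Subgroup (GL' (m ⊕ Unit)), Spans (coeR Γ) → Γ₃.map extendGL ≤ Γ →
      TracesBounded σ Γ → ∃ (Q : Matrix m m ℂ) (a : ℂ), IsPos (dg Q a) ∧
        (∀ γ ∈ Γ, dual (tw σ (co (m ⊕ Unit))) γ * dg Q a =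
          dg Q a * tw σ (co (m ⊕ Unit)) γ) ∧
        ∀ γ : Γ₃, dual (tw σ (coeR Γ₃)) γ * Q = Q * tw σ (coeR Γ₃) γ := by
    intro Γ hΓ hle hσ
    obtain ⟨C, hC⟩ := hσ
    obtain ⟨c, hc⟩ := entries_of_traces (spans_tw σ hΓ) (C := C) (fun γ => by
      rw [tw_apply, trace_map]
      exact hC γ.1 γ.2)
    obtain ⟨P, hPp, hP⟩ := exists_pos (tw σ (coeR Γ)) hc
    have hP' : ∀ γ, dual (tw σ (coeR Γ)) γ * P = P * tw σ (coeR Γ) γ := by
      intro γ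
      have e1 := hP γ
      have e2 : dual (tw σ (coeR Γ)) γ * (tw σ (coeR Γ) γ)ᴴ = 1 := by
        rw [dual_apply, ← Matrix.conjTranspose_mul, ← map_mul, mul_inv_cancel, map_one,
          Matrix.conjTranspose_one]
      calc dual (tw σ (coeR Γ)) γ * P
          = dual (tw σ (coeR Γ)) γ * ((tw σ (coeR Γ) γ)ᴴ * P * tw σ (coeR Γ) γ) := by rw [e1]
        _ = (dual (tw σ (coeR Γ)) γ * (tw σ (coeR Γ) γ)ᴴ) * (P * tw σ (coeR Γ) γ) := by
            simp only [mul_assoc]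
        _ = P * tw σ (coeR Γ) γ := by rw [e2, one_mul]
    obtain ⟨Q, a, rfl, hQ⟩ := block_form hm (spans_tw σ h3) (spans_dual (spans_tw σ h3)) (M := P) (by
      intro γ
      have h4 := hP' ⟨extendGL γ.1, hle ⟨γ.1, γ.2, rfl⟩⟩
      have h5 : tw σ (coeR Γ) ⟨extendGL γ.1, hle ⟨γ.1, γ.2, rfl⟩⟩ =
          ext1 (tw σ (coeR Γ₃) γ) := map_extend σ _
      have h6 : dual (tw σ (coeR Γ)) ⟨extendGL γ.1, hle ⟨γ.1, γ.2, rfl⟩⟩ =
          ext1 (dual (tw σ (coeR Γ₃)) γ) := dual_tw_extend σ γ.1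
      rw [h5, h6] at h4
      exact h4)
    exact ⟨Q, a, hPp, fun γ hγ => hP' ⟨γ, hγ⟩, hQ⟩
  obtain ⟨Q₁, a₁, hu1, e1, q1⟩ := key Γ₁ h1 hle1 hσ1
  obtain ⟨Q₂, a₂, hu2, e2, q2⟩ := key Γ₂ h2 hle2 hσ2
  obtain ⟨c, hc0, hc⟩ := proportional hm (spans_tw σ h3) q1 q2 (dg_isUnit (isPos_isUnit hu1)).1
    (dg_isUnit (isPos_isUnit hu2)).1
  have hall := hybrid_inter (dual (tw σ (co (m ⊕ Unit)))) (tw σ (co (m ⊕ Unit)))
    (dual (tw σ (co ((m ⊕ Unit) ⊕ Unit)))) (tw σ (co ((m ⊕ Unit) ⊕ Unit)))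
    (dual_tw_extend σ) (tw_extend σ) (dual_tw_swap σ) (tw_swap σ) hc e1 e2
  -- positivity
  obtain ⟨i⟩ := hmne
  obtain ⟨x, hx, hx'⟩ := isPos_diag hu1 (Sum.inl i)
  obtain ⟨y, hy, hy'⟩ := isPos_diag hu2 (Sum.inl i)
  obtain ⟨z, hz, hz'⟩ := isPos_diag hu2 (Sum.inr ())
  have hx'' : Q₁ i i = x := hx'
  have hy'' : Q₂ i i = y := hy'
  have hz'' : a₂ = z := by
    rw [← hz']
    unfold dg
    simp
  have hcr : c = ((x / y : ℝ) : ℂ) := by
    have h4 : Q₁ i i = c * Q₂ i i := by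
      conv_lhs => rw [hc]
      rfl
    rw [hx'', hy''] at h4
    have hy0 : (y : ℂ) ≠ 0 := Complex.ofReal_ne_zero.2 hy.ne'
    rw [Complex.ofReal_div, eq_div_iff hy0, h4]
  have hca : c * a₂ = ((x / y * z : ℝ) : ℂ) := by
    rw [hcr, hz'', ← Complex.ofReal_mul]
  have hpos : IsPos (dn (dg Q₁ a₁) (c * a₂)) := by
    rw [hca]
    exact isPos_dn hu1 (by positivity)
  obtain ⟨B, hB0, hB⟩ := entries_bounded hpos
  refine ⟨∑ _i : (m ⊕ Unit) ⊕ Unit, B, fun γ hγ => ?_⟩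
  have h4 := hall γ hγ
  have h5 : (γ.1.map σ)ᴴ * dn (dg Q₁ a₁) (c * a₂) * γ.1.map σ = dn (dg Q₁ a₁) (c * a₂) := by
    have e3 : (γ.1.map σ)ᴴ * dual (tw σ (co ((m ⊕ Unit) ⊕ Unit))) γ = 1 := by
      rw [dual_apply]
      have : γ.1.map σ = tw σ (co ((m ⊕ Unit) ⊕ Unit)) γ := rfl
      rw [this, ← Matrix.conjTranspose_mul, ← map_mul, inv_mul_cancel, map_one,
        Matrix.conjTranspose_one]
    have e4 : tw σ (co ((m ⊕ Unit) ⊕ Unit)) γ = γ.1.map σ := rfl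
    rw [e4] at h4
    rw [mul_assoc, ← h4, ← mul_assoc, e3, one_mul]
  rw [← trace_map]
  unfold Matrix.trace
  refine (norm_sum_le _ _).trans (Finset.sum_le_sum fun i _ => ?_)
  exact hB _ h5 i i

end hybrid

end Pool.Agent.K4H34.HH
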