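import Mathlib
import Pool.Agent.K4H34.HH.Main
import Pool.Agent.K4H34.HH.Burn
import Pool.Agent.TH119.MX.Gal

/-!
# Arithmeticity of orthogonal hybrids
-/

set_option autoImplicit false
set_option linter.unusedSectionVars false

namespace Pool.Agent.K4H34.HH

open Matrix

open scoped ComplexOrder

section fields

variable {N N' : Type*} [Fintype N] [DecidableEq N] [Fintype N'] [DecidableEq N']

theorem trace_mem {Γ : Subgroup (GL' N)} {γ : GL' N} (hγ : γ ∈ Γ) : γ.1.trace ∈ traceField Γ :=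
  Subfield.subset_closure ⟨γ, hγ, rfl⟩

theorem fixed_iff (σ : ℂ ≃+* ℂ) (Γ : Subgroup (GL' N)) :
    TracesFixed σ Γ ↔ ∀ z ∈ traceField Γ, σ z = z := by
  constructor
  · intro h z hz
    have h1 : traceField Γ ≤ (σ : ℂ →+* ℂ).eqLocusField (RingHom.id ℂ) := by
      unfold traceField
      rw [Subfield.closure_le]
      rintro _ ⟨γ, hγ, rfl⟩
      exact h γ hγ
    exact h1 hz
  · intro h γ hγ
    exact h _ (trace_mem hγ)

theorem field_le_iff (Γ : Subgroup (GL' N)) (Γ' : Subgroup (GL' N')) :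
    traceField Γ ≤ traceField Γ' ↔ ∀ σ, TracesFixed σ Γ' → TracesFixed σ Γ := by
  constructor
  · intro h σ hσ
    rw [fixed_iff] at hσ ⊢
    exact fun z hz => hσ z (h hz)
  · intro h z hz
    by_contra hz'
    obtain ⟨σ, h1, h2⟩ := Pool.Agent.TH119.MX.exists_move hz'
    exact h2 ((fixed_iff σ Γ).1 (h σ ((fixed_iff σ Γ').2 h1)) z hz)

theorem field_eq_iff (Γ : Subgroup (GL' N)) (Γ' : Subgroup (GL' N')) :
    traceField Γ = traceField Γ' ↔ ∀ σ, TracesFixed σ Γ' ↔ TracesFixed σ Γ := by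
  constructor
  · intro h σ
    exact ⟨(field_le_iff Γ Γ').1 h.le σ, (field_le_iff Γ' Γ).1 h.ge σ⟩
  · intro h
    exact le_antisymm ((field_le_iff Γ Γ').2 fun σ => (h σ).1)
      ((field_le_iff Γ' Γ).2 fun σ => (h σ).2)

end fields

section hybrid

variable {m : Type*} [Fintype m] [DecidableEq m]

theorem trace_extend (A : Matrix m m ℂ) : (extend A).trace = A.trace + 1 := by
  change (Matrix.fromBlocks A 0 0 1).trace = _
  unfold Matrix.trace
  rw [Fintype.sum_sum_type]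
  simp [Matrix.diag]

theorem trace_extendGL (γ : GL' m) : (extendGL γ).1.trace = γ.1.trace + 1 := trace_extend γ.1

theorem trace_sw (A : Matrix ((m ⊕ Unit) ⊕ Unit) ((m ⊕ Unit) ⊕ Unit) ℂ) :
    (sw A).trace = A.trace := by
  unfold Matrix.trace
  exact Fintype.sum_equiv (swapLast (m := m)).symm _ _ fun i => rfl

theorem trace_swapGL (x : GL' ((m ⊕ Unit) ⊕ Unit)) : (swapGL x).1.trace = x.1.trace :=
  trace_sw x.1

variable {Γ₁ Γ₂ : Subgroup (GL' (m ⊕ Unit))} {Γ₃ : Subgroup (GL' m)}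

theorem left_mem {γ : GL' (m ⊕ Unit)} (hγ : γ ∈ Γ₁) : extendGL γ ∈ hybrid Γ₁ Γ₂ :=
  Subgroup.mem_sup_left ⟨γ, hγ, rfl⟩

theorem right_mem {γ : GL' (m ⊕ Unit)} (hγ : γ ∈ Γ₂) : swapGL (extendGL γ) ∈ hybrid Γ₁ Γ₂ :=
  Subgroup.mem_sup_right ⟨extendGL γ, ⟨γ, hγ, rfl⟩, rfl⟩

theorem fixed_of_extend {Γ : Subgroup (GL' (m ⊕ Unit))} (hle : Γ₃.map extendGL ≤ Γ)
    {σ : ℂ ≃+* ℂ} (h : TracesFixed σ Γ) : TracesFixed σ Γ₃ := by
  intro γ hγ
  have h1 := h _ (hle ⟨γ, hγ, rfl⟩)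
  rw [trace_extendGL, map_add, map_one] at h1
  exact add_right_cancel h1

theorem conj_of_extend {Γ : Subgroup (GL' (m ⊕ Unit))} (hle : Γ₃.map extendGL ≤ Γ)
    {σ : ℂ ≃+* ℂ} (h : TracesConjugated σ Γ) : TracesConjugated σ Γ₃ := by
  intro γ hγ
  have h1 := h _ (hle ⟨γ, hγ, rfl⟩)
  rw [trace_extendGL, map_add, map_one, map_add, map_one] at h1
  exact add_right_cancel h1

theorem bounded_of_extend {Γ : Subgroup (GL' (m ⊕ Unit))} (hle : Γ₃.map extendGL ≤ Γ)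
    {σ : ℂ ≃+* ℂ} (h : TracesBounded σ Γ) : TracesBounded σ Γ₃ := by
  obtain ⟨C, hC⟩ := h
  refine ⟨C + 1, fun γ hγ => ?_⟩
  have h1 := hC _ (hle ⟨γ, hγ, rfl⟩)
  rw [trace_extendGL, map_add, map_one] at h1
  have h2 := norm_sub_le (σ γ.1.trace + 1) 1
  rw [add_sub_cancel_right, norm_one] at h2
  linarith

theorem fixed_left {σ : ℂ ≃+* ℂ} (h : TracesFixed σ (hybrid Γ₁ Γ₂)) : TracesFixed σ Γ₁ := by
  intro γ hγ
  have h1 := h _ (left_mem hγ)
  rw [trace_extendGL, map_add, map_one] at h1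
  exact add_right_cancel h1

theorem fixed_right {σ : ℂ ≃+* ℂ} (h : TracesFixed σ (hybrid Γ₁ Γ₂)) : TracesFixed σ Γ₂ := by
  intro γ hγ
  have h1 := h _ (right_mem hγ)
  rw [trace_swapGL, trace_extendGL, map_add, map_one] at h1
  exact add_right_cancel h1

theorem conj_left {σ : ℂ ≃+* ℂ} (h : TracesConjugated σ (hybrid Γ₁ Γ₂)) :
    TracesConjugated σ Γ₁ := by
  intro γ hγ
  have h1 := h _ (left_mem hγ)
  rw [trace_extendGL, map_add, map_one, map_add, map_one] at h1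
  exact add_right_cancel h1

theorem conj_right {σ : ℂ ≃+* ℂ} (h : TracesConjugated σ (hybrid Γ₁ Γ₂)) :
    TracesConjugated σ Γ₂ := by
  intro γ hγ
  have h1 := h _ (right_mem hγ)
  rw [trace_swapGL, trace_extendGL, map_add, map_one, map_add, map_one] at h1
  exact add_right_cancel h1

theorem bounded_left {σ : ℂ ≃+* ℂ} (h : TracesBounded σ (hybrid Γ₁ Γ₂)) :
    TracesBounded σ Γ₁ := by
  obtain ⟨C, hC⟩ := h
  refine ⟨C + 1, fun γ hγ => ?_⟩
  have h1 := hC _ (left_mem hγ)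
  rw [trace_extendGL, map_add, map_one] at h1
  have h2 := norm_sub_le (σ γ.1.trace + 1) 1
  rw [add_sub_cancel_right, norm_one] at h2
  linarith

/-- Bounded conjugates and fixed or conjugated traces exclude each other. -/
theorem not_bounded_fixed {N : Type*} [Fintype N] [DecidableEq N] {Γ : Subgroup (GL' N)}
    (hu : HasUnboundedTraces Γ) {σ : ℂ ≃+* ℂ} (hb : TracesBounded σ Γ) : ¬ TracesFixed σ Γ := by
  intro h
  obtain ⟨C, hC⟩ := hb
  exact hu ⟨C, fun γ hγ => by rw [← h γ hγ]; exact hC γ hγ⟩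

theorem not_bounded_conj {N : Type*} [Fintype N] [DecidableEq N] {Γ : Subgroup (GL' N)}
    (hu : HasUnboundedTraces Γ) {σ : ℂ ≃+* ℂ} (hb : TracesBounded σ Γ) :
    ¬ TracesConjugated σ Γ := by
  intro h
  obtain ⟨C, hC⟩ := hb
  refine hu ⟨C, fun γ hγ => ?_⟩
  have h1 := hC γ hγ
  rwa [h γ hγ, Complex.norm_conj] at h1

theorem not_fixed_conj {N : Type*} [Fintype N] [DecidableEq N] {Γ : Subgroup (GL' N)}
    (hn : HasNonrealTrace Γ) {σ : ℂ ≃+* ℂ} (hb : TracesFixed σ Γ) : ¬ TracesConjugated σ Γ := by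
  intro h
  obtain ⟨γ, hγ, hne⟩ := hn
  exact hne (by rw [← h γ hγ, hb γ hγ])

/-- If an automorphism is the conjugation on the traces of both groups then also on those of the
hybrid. -/
theorem conj_case (hm : 2 ≤ Fintype.card m) (h3 : Spans (coeR Γ₃)) (h1 : Spans (coeR Γ₁))
    (h2 : Spans (coeR Γ₂)) (hle1 : Γ₃.map extendGL ≤ Γ₁) (hle2 : Γ₃.map extendGL ≤ Γ₂)
    (σ : ℂ ≃+* ℂ) (hσ1 : TracesConjugated σ Γ₁) (hσ2 : TracesConjugated σ Γ₂) :
    TracesConjugated σ (hybrid Γ₁ Γ₂) := by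
  let τ : ℂ ≃+* ℂ := σ.trans starRingAut
  have hτ : ∀ z, τ z = starRingEnd ℂ (σ z) := fun z => rfl
  have h4 := fixed_case hm h3 h1 h2 hle1 hle2 τ
    (fun γ hγ => by rw [hτ, hσ1 γ hγ, Complex.conj_conj])
    (fun γ hγ => by rw [hτ, hσ2 γ hγ, Complex.conj_conj])
  intro γ hγ
  have h5 := h4 γ hγ
  rw [hτ] at h5
  rw [← h5, Complex.conj_conj, h5]

theorem vinberg_of_same (hm : 2 ≤ Fintype.card m) (h3 : Spans (coeR Γ₃)) (h1 : Spans (coeR Γ₁))
    (h2 : Spans (coeR Γ₂)) (hle1 : Γ₃.map extendGL ≤ Γ₁) (hle2 : Γ₃.map extendGL ≤ Γ₂)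
    (hu : HasUnboundedTraces Γ₃) (hV1 : VinbergCondition Γ₁) (hV2 : VinbergCondition Γ₂)
    (hfc : ∀ σ, TracesFixed σ Γ₁ → ¬ TracesConjugated σ Γ₂)
    (hcf : ∀ σ, TracesConjugated σ Γ₁ → ¬ TracesFixed σ Γ₂) :
    VinbergCondition (hybrid Γ₁ Γ₂) := by
  intro σ
  rcases hV1 σ with hb1 | hf1 | hc1
  · rcases hV2 σ with hb2 | hf2 | hc2
    · exact Or.inl (bounded_case hm h3 h1 h2 hle1 hle2 σ hb1 hb2)
    · exact absurd (fixed_of_extend hle2 hf2) (not_bounded_fixed hu (bounded_of_extend hle1 hb1))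
    · exact absurd (conj_of_extend hle2 hc2) (not_bounded_conj hu (bounded_of_extend hle1 hb1))
  · rcases hV2 σ with hb2 | hf2 | hc2
    · exact absurd (fixed_of_extend hle1 hf1) (not_bounded_fixed hu (bounded_of_extend hle2 hb2))
    · exact Or.inr (Or.inl (fixed_case hm h3 h1 h2 hle1 hle2 σ hf1 hf2))
    · exact absurd hc2 (hfc σ hf1)
  · rcases hV2 σ with hb2 | hf2 | hc2
    · exact absurd (conj_of_extend hle1 hc1) (not_bounded_conj hu (bounded_of_extend hle2 hb2))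
    · exact absurd hf2 (hcf σ hc1)
    · exact Or.inr (Or.inr (conj_case hm h3 h1 h2 hle1 hle2 σ hc1 hc2))

/-- The criterion. -/
theorem vinberg_iff (hm : 2 ≤ Fintype.card m) (h3 : Spans (coeR Γ₃)) (h1 : Spans (coeR Γ₁))
    (h2 : Spans (coeR Γ₂)) (hle1 : Γ₃.map extendGL ≤ Γ₁) (hle2 : Γ₃.map extendGL ≤ Γ₂)
    (hu : HasUnboundedTraces Γ₃) (hV1 : VinbergCondition Γ₁) (hV2 : VinbergCondition Γ₂)
    (hn1 : HasNonrealTrace Γ₁) (hn2 : HasNonrealTrace Γ₂) :
    VinbergCondition (hybrid Γ₁ Γ₂) ↔ traceField Γ₁ = traceField Γ₂ := by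
  rw [field_eq_iff]
  constructor
  · intro hV σ
    constructor
    · intro hf
      rcases hV σ with hb | hf' | hc'
      · exact absurd (fixed_of_extend hle2 hf)
          (not_bounded_fixed hu (bounded_of_extend hle1 (bounded_left hb)))
      · exact fixed_left hf'
      · exact absurd (conj_right hc') (not_fixed_conj hn2 hf)
    · intro hf
      rcases hV σ with hb | hf' | hc'
      · exact absurd (fixed_of_extend hle1 hf)
          (not_bounded_fixed hu (bounded_of_extend hle1 (bounded_left hb)))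
      · exact fixed_right hf'
      · exact absurd (conj_left hc') (not_fixed_conj hn1 hf)
  · intro h
    refine vinberg_of_same hm h3 h1 h2 hle1 hle2 hu hV1 hV2 (fun σ hf => ?_) (fun σ hc hf => ?_)
    · exact not_fixed_conj hn2 ((h σ).2 hf)
    · exact not_fixed_conj hn1 ((h σ).1 hf) hc

theorem fixed_up (hle1 : Γ₃.map extendGL ≤ Γ₁) (hu : HasUnboundedTraces Γ₃)
    (hn3 : HasNonrealTrace Γ₃) (hV1 : VinbergCondition Γ₁) (σ : ℂ ≃+* ℂ) :
    TracesFixed σ Γ₃ ↔ TracesFixed σ Γ₁ := by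
  constructor
  · intro hf
    rcases hV1 σ with hb | hf' | hc
    · exact absurd hf (not_bounded_fixed hu (bounded_of_extend hle1 hb))
    · exact hf'
    · exact absurd (conj_of_extend hle1 hc) (not_fixed_conj hn3 hf)
  · exact fixed_of_extend hle1

/-- If the common subgroup has a trace that is not real then all trace fields agree. -/
theorem vinberg_of_nonreal (hm : 2 ≤ Fintype.card m) (h3 : Spans (coeR Γ₃))
    (h1 : Spans (coeR Γ₁)) (h2 : Spans (coeR Γ₂)) (hle1 : Γ₃.map extendGL ≤ Γ₁)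
    (hle2 : Γ₃.map extendGL ≤ Γ₂) (hu : HasUnboundedTraces Γ₃) (hV1 : VinbergCondition Γ₁)
    (hV2 : VinbergCondition Γ₂) (hn3 : HasNonrealTrace Γ₃) :
    VinbergCondition (hybrid Γ₁ Γ₂) ∧ traceField Γ₁ = traceField Γ₃ ∧
      traceField Γ₂ = traceField Γ₃ ∧ traceField (hybrid Γ₁ Γ₂) = traceField Γ₃ := by
  have e1 := fixed_up hle1 hu hn3 hV1
  have e2 := fixed_up hle2 hu hn3 hV2
  refine ⟨?_, (field_eq_iff _ _).2 e1, (field_eq_iff _ _).2 e2, (field_eq_iff _ _).2 fun σ => ?_⟩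
  · refine vinberg_of_same hm h3 h1 h2 hle1 hle2 hu hV1 hV2 (fun σ hf hc => ?_)
      (fun σ hc hf => ?_)
    · exact not_fixed_conj hn3 ((e1 σ).2 hf) (conj_of_extend hle2 hc)
    · exact not_fixed_conj hn3 ((e2 σ).2 hf) (conj_of_extend hle1 hc)
  · constructor
    · intro hf
      exact fixed_case hm h3 h1 h2 hle1 hle2 σ ((e1 σ).1 hf) ((e2 σ).1 hf)
    · intro hf
      exact (e1 σ).2 (fixed_left hf)

end hybrid

end Pool.Agent.K4H34.HH
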