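import Mathlib
import Pool.Agent.K4H34.HH.Final

/-!
# Zariski dense subgroups of special unitary groups
-/

set_option autoImplicit false
set_option linter.unusedSectionVars false

namespace Pool.Agent.K4H34.HH

open Matrix

open scoped ComplexOrder

section dense

variable {N : Type*} [Fintype N] [DecidableEq N]

theorem spans_of_dense (hN : 2 ≤ Fintype.card N) {Γ : Subgroup (GL' N)} (h : IsZariskiDense Γ) :
    Spans (coeR Γ) := by
  by_contra hcon
  obtain ⟨f, hf0, hf⟩ := Submodule.exists_le_ker_of_lt_top _ (lt_top_iff_ne_top.2 hcon)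
  have hfA : ∀ A : Matrix N N ℂ, f A = ∑ x : N × N, f (Matrix.single x.1 x.2 1) * A x.1 x.2 := by
    intro A
    conv_lhs => rw [Matrix.matrix_eq_sum_single A]
    rw [map_sum, Fintype.sum_prod_type]
    refine Finset.sum_congr rfl fun i _ => ?_
    rw [map_sum]
    refine Finset.sum_congr rfl fun j _ => ?_
    have h1 : Matrix.single i j (A i j) = A i j • Matrix.single i j (1 : ℂ) := by
      rw [Matrix.smul_single, smul_eq_mul, mul_one]
    rw [h1, map_smul, smul_eq_mul, mul_comm]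
  let p : MvPolynomial (N × N) ℂ :=
    ∑ x : N × N, MvPolynomial.C (f (Matrix.single x.1 x.2 1)) * MvPolynomial.X x
  have hp : ∀ A : Matrix N N ℂ, MvPolynomial.eval (fun x => A x.1 x.2) p = f A := by
    intro A
    rw [hfA A]
    simp [p]
  have h0 : ∀ A : Matrix N N ℂ, A.det = 1 → f A = 0 := by
    intro A hA
    rw [← hp]
    refine h p (fun γ hγ => ?_) A hA
    rw [hp]
    exact hf (Submodule.subset_span ⟨⟨γ, hγ⟩, rfl⟩)
  have h1 : f 1 = 0 := h0 1 Matrix.det_one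
  have hoff : ∀ i j : N, i ≠ j → f (Matrix.single i j 1) = 0 := by
    intro i j hij
    have h2 := h0 (Matrix.transvection i j 1) (Matrix.det_transvection_of_ne i j hij 1)
    unfold Matrix.transvection at h2
    rwa [map_add, h1, zero_add] at h2
  have hdiag : ∀ i : N, f (Matrix.single i i 1) = 0 := by
    intro i
    obtain ⟨j, hj⟩ : ∃ j, i ≠ j := by
      by_contra hcon'
      push Not at hcon'
      have : Fintype.card N ≤ 1 := Fintype.card_le_one_iff.2 fun a b => by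
        rw [← hcon' a, ← hcon' b]
      omega
    have h2 := h0 (Matrix.transvection i j 1 * Matrix.transvection j i 1) (by
      rw [Matrix.det_mul, Matrix.det_transvection_of_ne i j hj,
        Matrix.det_transvection_of_ne j i hj.symm, one_mul])
    have h3 : (Matrix.transvection i j 1 * Matrix.transvection j i 1 : Matrix N N ℂ) =
        1 + Matrix.single i j 1 + Matrix.single j i 1 + Matrix.single i i 1 := by
      unfold Matrix.transvection
      rw [mul_add, mul_one, add_mul, one_mul, Matrix.single_mul_single_same, mul_one]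
      abel
    rw [h3, map_add, map_add, map_add, h1, hoff i j hj, hoff j i hj.symm] at h2
    simpa using h2
  apply hf0
  ext A
  rw [hfA]
  rw [LinearMap.zero_apply]
  refine Finset.sum_eq_zero fun x _ => ?_
  by_cases hx : x.1 = x.2
  · rw [hx, hdiag, zero_mul]
  · rw [hoff _ _ hx, zero_mul]

/-- The difference of the traces of the adjugate and of the matrix. -/
noncomputable def adjP (N : Type*) [Fintype N] [DecidableEq N] : MvPolynomial (N × N) ℂ :=
  (Matrix.mvPolynomialX N N ℂ).adjugate.trace - (Matrix.mvPolynomialX N N ℂ).trace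

theorem eval_adjP (A : Matrix N N ℂ) :
    MvPolynomial.eval (fun x => A x.1 x.2) (adjP N) = A.adjugate.trace - A.trace := by
  unfold adjP
  have h1 : (Matrix.mvPolynomialX N N ℂ).map (MvPolynomial.eval fun x => A x.1 x.2) = A := by
    ext i j
    simp
  have h2 : ∀ B : Matrix N N (MvPolynomial (N × N) ℂ),
      MvPolynomial.eval (fun x => A x.1 x.2) B.trace =
        (B.map (MvPolynomial.eval fun x => A x.1 x.2)).trace := by
    intro B
    unfold Matrix.trace
    rw [map_sum]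
    rfl
  rw [map_sub, h2, h2, h1]
  have h3 := RingHom.map_adjugate (MvPolynomial.eval fun x => A x.1 x.2)
    (Matrix.mvPolynomialX N N ℂ)
  have h4 : ((Matrix.mvPolynomialX N N ℂ).adjugate.map (MvPolynomial.eval fun x => A x.1 x.2)) =
      ((MvPolynomial.eval fun x => A x.1 x.2).mapMatrix (Matrix.mvPolynomialX N N ℂ)).adjugate := h3
  rw [h4]
  change ((Matrix.mvPolynomialX N N ℂ).map _).adjugate.trace - _ = _
  rw [h1]

theorem adjugate_of_det {A B : Matrix N N ℂ} (hA : A.det = 1) (hAB : A * B = 1) :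
    A.adjugate = B := by
  have h1 : A.adjugate * A = 1 := by rw [Matrix.adjugate_mul, hA, one_smul]
  calc A.adjugate = A.adjugate * (A * B) := by rw [hAB, mul_one]
    _ = B := by rw [← mul_assoc, h1, one_mul]

/-- In a special unitary group the trace of the inverse is the conjugate of the trace. -/
theorem trace_inv {J : Matrix N N ℂ} (hJ : IsUnit J) {γ : GL' N} (hγ : γ ∈ SU J) :
    (γ⁻¹).1.trace = starRingEnd ℂ γ.1.trace := by
  obtain ⟨K, rfl⟩ := hJ
  obtain ⟨h1, _⟩ := hγ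
  have h2 : γ.1 * (γ⁻¹).1 = 1 := γ.mul_inv
  have h3 : γ.1ᴴ * K.1 = K.1 * (γ⁻¹).1 := by
    calc γ.1ᴴ * K.1 = γ.1ᴴ * K.1 * (γ.1 * (γ⁻¹).1) := by rw [h2, mul_one]
      _ = K.1 * (γ⁻¹).1 := by rw [← mul_assoc, h1]
  have h4 : γ.1ᴴ = K.1 * (γ⁻¹).1 * (K⁻¹).1 := by
    rw [← h3, mul_assoc, K.mul_inv, mul_one]
  have h5 : γ.1ᴴ.trace = (γ⁻¹).1.trace := by
    rw [h4, Matrix.trace_mul_comm, ← mul_assoc, K.inv_mul, one_mul]
  rw [← h5, Matrix.trace_conjTranspose]
  rfl

theorem nonreal_of_dense {J : Matrix N N ℂ} (hJ : IsUnit J) {Γ : Subgroup (GL' N)}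
    (hΓ : Γ ≤ SU J) (h : IsZariskiDense Γ)
    (hex : ∃ A B : Matrix N N ℂ, A.det = 1 ∧ A * B = 1 ∧ A.trace ≠ B.trace) :
    HasNonrealTrace Γ := by
  by_contra hcon
  unfold HasNonrealTrace at hcon
  push Not at hcon
  obtain ⟨A, B, hA, hAB, hne⟩ := hex
  have h1 := h (adjP N) (fun γ hγ => by
    rw [eval_adjP, adjugate_of_det (hΓ hγ).2 γ.mul_inv]
    change (γ⁻¹).1.trace - γ.1.trace = 0
    rw [trace_inv hJ (hΓ hγ), hcon γ hγ, sub_self]) A hA
  rw [eval_adjP, adjugate_of_det hA hAB, sub_eq_zero] at h1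
  exact hne h1.symm

theorem unbounded_traces [Nonempty N] {Γ : Subgroup (GL' N)} (hs : Spans (coeR Γ))
    (hu : IsUnbounded Γ) : HasUnboundedTraces Γ := by
  rintro ⟨C, hC⟩
  obtain ⟨c, hc⟩ := entries_of_traces hs (C := C) (fun g => hC g.1 g.2)
  exact hu ⟨c, fun γ hγ i j => hc ⟨γ, hγ⟩ i j⟩

theorem adjoint_of_vinberg {J : Matrix N N ℂ} (hJ : IsUnit J) {Γ : Subgroup (GL' N)}
    (hΓ : Γ ≤ SU J) (hV : VinbergCondition Γ) : AdjointVinbergCondition Γ := by
  have h0 : ∀ γ : GL' N, (((‖γ.1.trace‖ ^ 2 - 1 : ℝ) : ℂ)) =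
      γ.1.trace * starRingEnd ℂ γ.1.trace - 1 := by
    intro γ
    rw [Complex.mul_conj']
    push_cast
    ring
  intro σ
  rcases hV σ with hb | hf | hc
  · left
    obtain ⟨C, hC⟩ := hb
    refine ⟨C * C + 1, fun γ hγ => ?_⟩
    have hC0 : 0 ≤ C := (norm_nonneg _).trans (hC γ hγ)
    rw [h0, map_sub, map_one, map_mul, ← trace_inv hJ (hΓ hγ)]
    refine (norm_sub_le _ _).trans ?_
    rw [norm_mul, norm_one]
    have h1 := mul_le_mul (hC γ hγ) (hC γ⁻¹ (Γ.inv_mem hγ)) (norm_nonneg _) hC0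
    linarith
  · right
    intro γ hγ
    rw [h0, map_sub, map_one, map_mul, ← trace_inv hJ (hΓ hγ), hf γ hγ, hf γ⁻¹ (Γ.inv_mem hγ)]
  · right
    intro γ hγ
    rw [h0, map_sub, map_one, map_mul, ← trace_inv hJ (hΓ hγ), hc γ hγ, hc γ⁻¹ (Γ.inv_mem hγ),
      trace_inv hJ (hΓ hγ), Complex.conj_conj, mul_comm]

end dense

section su

variable {m : Type*} [Fintype m] [DecidableEq m]

theorem isUnit_extend {J : Matrix m m ℂ} (hJ : IsUnit J) : IsUnit (extend J) := hJ.map extend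

theorem extendGL_mem {J : Matrix m m ℂ} {γ : GL' m} (hγ : γ ∈ SU J) :
    extendGL γ ∈ SU (extend J) := by
  obtain ⟨h1, h2⟩ := hγ
  refine ⟨?_, ?_⟩
  · change (extend γ.1)ᴴ * extend J * extend γ.1 = extend J
    rw [star_extend, ← map_mul, ← map_mul, h1]
  · change (Matrix.fromBlocks γ.1 0 0 1).det = 1
    rw [Matrix.det_fromBlocks_zero₂₁, h2, one_mul, Matrix.det_one]

theorem extend_extend (J : Matrix m m ℂ) :
    extend (extend J) = dn (dg J 1) 1 := by
  unfold dn dg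
  simp only [one_smul]
  rfl

theorem swapGL_mem {J : Matrix m m ℂ} {x : GL' ((m ⊕ Unit) ⊕ Unit)}
    (hx : x ∈ SU (extend (extend J))) : swapGL x ∈ SU (extend (extend J)) := by
  obtain ⟨h1, h2⟩ := hx
  have h3 : sw (extend (extend J)) = extend (extend J) := by
    rw [extend_extend, sw_dn]
  refine ⟨?_, ?_⟩
  · change (sw x.1)ᴴ * extend (extend J) * sw x.1 = extend (extend J)
    rw [← h3, star_sw, ← map_mul, ← map_mul, h1]
  · change (sw x.1).det = 1
    rw [← h2]
    exact Matrix.det_reindexAlgEquiv ℂ ℂ (swapLast (m := m)) x.1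

theorem hybrid_le {J : Matrix m m ℂ} {Γ₁ Γ₂ : Subgroup (GL' (m ⊕ Unit))}
    (h1 : Γ₁ ≤ SU (extend J)) (h2 : Γ₂ ≤ SU (extend J)) :
    hybrid Γ₁ Γ₂ ≤ SU (extend (extend J)) := by
  unfold hybrid
  refine sup_le ?_ ?_
  · rintro _ ⟨γ, hγ, rfl⟩
    exact extendGL_mem (h1 hγ)
  · rintro _ ⟨_, ⟨γ, hγ, rfl⟩, rfl⟩
    exact swapGL_mem (extendGL_mem (h2 hγ))

/-- Hybrids in special unitary groups. -/
theorem su_hybrid {J : Matrix m m ℂ} (hJ : IsUnit J) (hm : 2 ≤ Fintype.card m)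
    (hex : ∃ A B : Matrix m m ℂ, A.det = 1 ∧ A * B = 1 ∧ A.trace ≠ B.trace)
    {Γ₁ Γ₂ : Subgroup (GL' (m ⊕ Unit))} {Γ₃ : Subgroup (GL' m)}
    (h1 : Γ₁ ≤ SU (extend J)) (h2 : Γ₂ ≤ SU (extend J)) (h3 : Γ₃ ≤ SU J)
    (hd1 : IsZariskiDense Γ₁) (hd2 : IsZariskiDense Γ₂) (hd3 : IsZariskiDense Γ₃)
    (hu : IsUnbounded Γ₃) (hle1 : Γ₃.map extendGL ≤ Γ₁) (hle2 : Γ₃.map extendGL ≤ Γ₂)
    (hV1 : VinbergCondition Γ₁) (hV2 : VinbergCondition Γ₂) :
    hybrid Γ₁ Γ₂ ≤ SU (extend (extend J)) ∧ VinbergCondition (hybrid Γ₁ Γ₂) ∧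
      AdjointVinbergCondition (hybrid Γ₁ Γ₂) ∧ traceField Γ₁ = traceField Γ₃ ∧
      traceField Γ₂ = traceField Γ₃ ∧ traceField (hybrid Γ₁ Γ₂) = traceField Γ₃ := by
  have hm' : 2 ≤ Fintype.card (m ⊕ Unit) := by
    rw [Fintype.card_sum]
    omega
  have : Nonempty m := by
    rw [← Fintype.card_pos_iff]
    omega
  have s1 := spans_of_dense hm' hd1
  have s2 := spans_of_dense hm' hd2
  have s3 := spans_of_dense hm hd3
  have hle := hybrid_le h1 h2
  obtain ⟨k1, k2, k3, k4⟩ := vinberg_of_nonreal hm s3 s1 s2 hle1 hle2 (unbounded_traces s3 hu)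
    hV1 hV2 (nonreal_of_dense hJ h3 hd3 hex)
  exact ⟨hle, k1, adjoint_of_vinberg (isUnit_extend (isUnit_extend hJ)) hle k1, k2, k3, k4⟩

/-- A diagonal matrix whose trace is not that of its inverse. -/
theorem exists_diag (k : ℕ) : ∃ A B : Matrix (Fin (k + 3)) (Fin (k + 3)) ℂ,
    A.det = 1 ∧ A * B = 1 ∧ A.trace ≠ B.trace := by
  let d : Fin (k + 3) → ℂ := Fin.cons 2 (Fin.cons 2 (Fin.cons (1 / 4) fun _ => 1))
  let e : Fin (k + 3) → ℂ := Fin.cons (1 / 2) (Fin.cons (1 / 2) (Fin.cons 4 fun _ => 1))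
  have d0 : d 0 = 2 := rfl
  have d1 : d (Fin.succ 0) = 2 := rfl
  have d2 : d (Fin.succ (Fin.succ 0)) = 1 / 4 := rfl
  have d3 : ∀ i : Fin k, d i.succ.succ.succ = 1 := fun _ => rfl
  have e0 : e 0 = 1 / 2 := rfl
  have e1 : e (Fin.succ 0) = 1 / 2 := rfl
  have e2 : e (Fin.succ (Fin.succ 0)) = 4 := rfl
  have e3 : ∀ i : Fin k, e i.succ.succ.succ = 1 := fun _ => rfl
  refine ⟨Matrix.diagonal d, Matrix.diagonal e, ?_, ?_, ?_⟩
  · rw [Matrix.det_diagonal, Fin.prod_univ_succ, Fin.prod_univ_succ, Fin.prod_univ_succ]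
    simp only [d0, d1, d2, d3, Finset.prod_const_one]
    norm_num
  · rw [Matrix.diagonal_mul_diagonal, ← Matrix.diagonal_one]
    congr 1
    funext i
    refine Fin.cases ?_ (fun i => ?_) i
    · rw [d0, e0]
      norm_num
    · refine Fin.cases ?_ (fun i => ?_) i
      · rw [d1, e1]
        norm_num
      · refine Fin.cases ?_ (fun i => ?_) i
        · rw [d2, e2]
          norm_num
        · rw [d3, e3]
          norm_num
  · rw [Matrix.trace_diagonal, Matrix.trace_diagonal, Fin.sum_univ_succ, Fin.sum_univ_succ,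
      Fin.sum_univ_succ, Fin.sum_univ_succ (f := e), Fin.sum_univ_succ, Fin.sum_univ_succ]
    simp only [d0, d1, d2, d3, e0, e1, e2, e3]
    intro h
    have h1 : ((2 : ℂ) + (2 + 1 / 4)) = 1 / 2 + (1 / 2 + 4) := by linear_combination h
    norm_num at h1

theorem isUnit_lorentz (k : ℕ) : IsUnit (lorentz k) := by
  rw [Matrix.isUnit_iff_isUnit_det, isUnit_iff_ne_zero]
  unfold lorentz
  rw [Matrix.det_diagonal, Finset.prod_ne_zero_iff]
  intro i _
  split_ifs <;> norm_num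

end su

end Pool.Agent.K4H34.HH
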