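import Mathlib
import Pool.Agent.K4H34.HH.Dense

/-!
# Groups of points of unitary groups over CM fields satisfy Vinberg's condition
-/

set_option autoImplicit false
set_option linter.unusedSectionVars false

namespace Pool.Agent.K4H34.HH

open Matrix

open scoped ComplexOrder

variable {N : Type*} [Fintype N] [DecidableEq N]

/-- `E` is a subfield of `ℂ` that is stable under the complex conjugation, and the conjugation
commutes with all embeddings of `E` (so `E` is a CM field or totally real if it is a number field);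
`H` is a Hermitian matrix over `E` all of whose conjugates are definite, except for those under the
automorphisms which are the identity on the real elements of `E`. -/
structure IsAdmissible (E : Subfield ℂ) (H : Matrix N N ℂ) : Prop where
  conj_mem : ∀ z ∈ E, starRingEnd ℂ z ∈ E
  commutes : ∀ (σ : ℂ ≃+* ℂ), ∀ z ∈ E, σ (starRingEnd ℂ z) = starRingEnd ℂ (σ z)
  entries : ∀ i j, H i j ∈ E
  hermitian : Hᴴ = H
  definite : ∀ σ : ℂ ≃+* ℂ, (∃ z ∈ E, starRingEnd ℂ z = z ∧ σ z ≠ z) →
    IsPos (H.map σ) ∨ IsPos (-(H.map σ))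

/-- After a change of coordinates, the matrices of the group have entries in a CM field `E` and
preserve an admissible Hermitian form over `E`. -/
def IsOfHermitianType (Γ : Subgroup (GL' N)) : Prop :=
  ∃ (E : Subfield ℂ) (H : Matrix N N ℂ) (P : GL' N), IsAdmissible E H ∧
    ∀ γ ∈ Γ, (∀ i j, (P * γ * P⁻¹).1 i j ∈ E) ∧ (P * γ * P⁻¹).1ᴴ * H * (P * γ * P⁻¹).1 = H

theorem trace_conj (P γ : GL' N) : (P * γ * P⁻¹).1.trace = γ.1.trace := by
  rw [Units.val_mul, Units.val_mul, Matrix.trace_mul_comm, ← mul_assoc, P.inv_mul, one_mul]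

/-- Subgroups of unitary groups over CM fields satisfy Vinberg's condition. -/
theorem vinberg_of_hermitian {Γ : Subgroup (GL' N)} (h : IsOfHermitianType Γ) :
    VinbergCondition Γ := by
  obtain ⟨E, H, P, hE, hΓ⟩ := h
  have htr : ∀ γ ∈ Γ, γ.1.trace ∈ E := by
    intro γ hγ
    rw [← trace_conj P γ]
    exact sum_mem fun i _ => (hΓ γ hγ).1 i i
  intro σ
  by_cases hσ : ∀ z ∈ E, starRingEnd ℂ z = z → σ z = z
  · right
    by_cases hreal : ∀ z ∈ E, starRingEnd ℂ z = z
    · left
      exact fun γ hγ => hσ _ (htr γ hγ) (hreal _ (htr γ hγ))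
    · push Not at hreal
      obtain ⟨z₀, hz₀, hne⟩ := hreal
      set δ := z₀ - starRingEnd ℂ z₀ with hδ
      have hδE : δ ∈ E := E.sub_mem hz₀ (hE.conj_mem z₀ hz₀)
      have hδ0 : δ ≠ 0 := sub_ne_zero.2 (Ne.symm hne)
      have hδc : starRingEnd ℂ δ = -δ := by
        rw [hδ, map_sub, Complex.conj_conj]
        ring
      have hδ2 : σ (δ * δ) = δ * δ := hσ _ (E.mul_mem hδE hδE) (by
        rw [map_mul, hδc]
        ring)
      have hδσ : σ δ = δ ∨ σ δ = -δ := by
        rw [map_mul] at hδ2
        exact mul_self_eq_mul_self_iff.1 hδ2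
      have h2E : (2 : ℂ) ∈ E := by
        have : (1 : ℂ) + 1 ∈ E := E.add_mem E.one_mem E.one_mem
        rwa [one_add_one_eq_two] at this
      have hdec : ∀ z ∈ E, ∃ a b : ℂ, z = a + b * δ ∧ σ a = a ∧ σ b = b ∧
          starRingEnd ℂ a = a ∧ starRingEnd ℂ b = b := by
        intro z hz
        have hzc := hE.conj_mem z hz
        have ha : (z + starRingEnd ℂ z) / 2 ∈ E := E.div_mem (E.add_mem hz hzc) h2E
        have hb : (z - starRingEnd ℂ z) / (2 * δ) ∈ E :=
          E.div_mem (E.sub_mem hz hzc) (E.mul_mem h2E hδE)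
        have ha' : starRingEnd ℂ ((z + starRingEnd ℂ z) / 2) = (z + starRingEnd ℂ z) / 2 := by
          rw [map_div₀, map_add, Complex.conj_conj, map_ofNat]
          ring
        have hb' : starRingEnd ℂ ((z - starRingEnd ℂ z) / (2 * δ)) =
            (z - starRingEnd ℂ z) / (2 * δ) := by
          rw [map_div₀, map_sub, Complex.conj_conj, map_mul, map_ofNat, hδc]
          field_simp
          ring
        refine ⟨_, _, ?_, hσ _ ha ha', hσ _ hb hb', ha', hb'⟩
        field_simp
        ring
      rcases hδσ with h1 | h1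
      · left
        intro γ hγ
        obtain ⟨a, b, h2, h3, h4, _, _⟩ := hdec _ (htr γ hγ)
        rw [h2, map_add, map_mul, h3, h4, h1]
      · right
        intro γ hγ
        obtain ⟨a, b, h2, h3, h4, h5, h6⟩ := hdec _ (htr γ hγ)
        rw [h2, map_add, map_mul, h3, h4, h1, map_add, map_mul, h5, h6, hδc]
  · left
    push Not at hσ
    have key : ∀ H' : Matrix N N ℂ, IsPos H' → (∀ γ ∈ Γ, ((P * γ * P⁻¹).1.map σ)ᴴ * H' *
        (P * γ * P⁻¹).1.map σ = H') → TracesBounded σ Γ := by
      intro H' hH' hinv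
      obtain ⟨B, hB0, hB⟩ := entries_bounded hH'
      refine ⟨∑ _i : N, B, fun γ hγ => ?_⟩
      rw [← trace_conj P γ, ← trace_map]
      unfold Matrix.trace
      exact (norm_sum_le _ _).trans (Finset.sum_le_sum fun i _ => hB _ (hinv γ hγ) i i)
    have hmap : ∀ γ ∈ Γ, ((P * γ * P⁻¹).1.map σ)ᴴ * H.map σ * (P * γ * P⁻¹).1.map σ =
        H.map σ := by
      intro γ hγ
      obtain ⟨h1, h2⟩ := hΓ γ hγ
      have h3 : ((P * γ * P⁻¹).1.map σ)ᴴ = (P * γ * P⁻¹).1ᴴ.map σ := by
        ext i j
        rw [Matrix.conjTranspose_apply, Matrix.map_apply, Matrix.map_apply,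
          Matrix.conjTranspose_apply]
        exact (hE.commutes σ _ (h1 j i)).symm
      rw [h3]
      have h4 : ∀ A B : Matrix N N ℂ, A.map σ * B.map σ = (A * B).map σ := by
        intro A B
        exact (Matrix.map_mul (f := (σ : ℂ →+* ℂ))).symm
      rw [h4, h4, h2]
    rcases hE.definite σ hσ with h1 | h1
    · exact key _ h1 hmap
    · refine key _ h1 fun γ hγ => ?_
      rw [mul_neg, neg_mul, hmap γ hγ]

end Pool.Agent.K4H34.HH
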