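import Mathlib
import Pool.Agent.K4H34.HH.Herm

/-!
# Orthogonal hybrids in SU(n, 1)
-/

set_option autoImplicit false
set_option linter.unusedSectionVars false

namespace Pool.Agent.K4H34.HH

open Matrix

/-- A matrix whose trace is not that of its inverse, in dimension at least three. -/
theorem exists_traces {N : Type*} [Fintype N] [DecidableEq N] (hN : 3 ≤ Fintype.card N) :
    ∃ A B : Matrix N N ℂ, A.det = 1 ∧ A * B = 1 ∧ A.trace ≠ B.trace := by
  obtain ⟨k, hk⟩ := Nat.exists_eq_add_of_le' hN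
  obtain ⟨A, B, h1, h2, h3⟩ := exists_diag k
  let e : N ≃ Fin (k + 3) := Fintype.equivFinOfCardEq hk
  have htr : ∀ C : Matrix (Fin (k + 3)) (Fin (k + 3)) ℂ, (C.submatrix e e).trace = C.trace := by
    intro C
    unfold Matrix.trace
    exact Fintype.sum_equiv e _ _ fun i => rfl
  refine ⟨A.submatrix e e, B.submatrix e e, ?_, ?_, ?_⟩
  · rw [Matrix.det_submatrix_equiv_self, h1]
  · rw [Matrix.submatrix_mul_equiv, h2, Matrix.submatrix_one_equiv]
  · rwa [htr, htr]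

/-- **Orthogonal hybrids in `SU(n, 1)`, `n = k + 3`.** -/
theorem hunt (k : ℕ) {Γ₁ Γ₂ : Subgroup (GL' (Fin (k + 2) ⊕ Unit))}
    {Γ₃ : Subgroup (GL' (Fin (k + 2)))} (h₁ : IsLarge (extend (lorentz (k + 1))) Γ₁)
    (h₂ : IsLarge (extend (lorentz (k + 1))) Γ₂) (h₃ : IsLarge (lorentz (k + 1)) Γ₃)
    (hle1 : Γ₃.map extendGL ≤ Γ₁) (hle2 : Γ₃.map extendGL ≤ Γ₂)
    (hV1 : VinbergCondition Γ₁) (hV2 : VinbergCondition Γ₂) :
    (VinbergCondition (hybrid Γ₁ Γ₂) ↔ traceField Γ₁ = traceField Γ₂) ∧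
      (1 ≤ k → traceField Γ₁ = traceField Γ₂) ∧
      (VinbergCondition (hybrid Γ₁ Γ₂) → AdjointVinbergCondition (hybrid Γ₁ Γ₂)) := by
  have c3 : 2 ≤ Fintype.card (Fin (k + 2)) := by
    rw [Fintype.card_fin]
    omega
  have c1 : 3 ≤ Fintype.card (Fin (k + 2) ⊕ Unit) := by
    rw [Fintype.card_sum, Fintype.card_fin, Fintype.card_unit]
    omega
  have s1 := spans_of_dense (le_trans (by norm_num) c1) h₁.dense
  have s2 := spans_of_dense (le_trans (by norm_num) c1) h₂.dense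
  have s3 := spans_of_dense c3 h₃.dense
  have hJ := isUnit_lorentz (k + 1)
  have hu := unbounded_traces s3 h₃.unbounded
  have hle := hybrid_le h₁.le h₂.le
  refine ⟨vinberg_iff c3 s3 s1 s2 hle1 hle2 hu hV1 hV2
    (nonreal_of_dense (isUnit_extend hJ) h₁.le h₁.dense (exists_traces c1))
    (nonreal_of_dense (isUnit_extend hJ) h₂.le h₂.dense (exists_traces c1)), ?_,
    adjoint_of_vinberg (isUnit_extend (isUnit_extend hJ)) hle⟩
  intro hk
  obtain ⟨_, k2, k3, _⟩ := vinberg_of_nonreal c3 s3 s1 s2 hle1 hle2 hu hV1 hV2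
    (nonreal_of_dense hJ h₃.le h₃.dense (exists_traces (by
      rw [Fintype.card_fin]
      omega)))
  rw [k2, k3]

end Pool.Agent.K4H34.HH
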